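import Pool.Agent.Q38.L2Y.YDa

/-!
# Job 31161 (project L2Y of helper255): the Gaussian field on low horocycles
-/

set_option autoImplicit false

namespace Pool.Agent.Q38.L2Y

open Finset MeasureTheory Filter Topology
open Pool.Agent.Q255.L2 Pool.Agent.Q255.L2Y Pool.Agent.Q255.EP Pool.Agent.Q162.L2.GMB
open Pool.Agent.Q162.L2.GMD (bc bc_neg bc_norm sqrt_diff bal_step DB_one DB_multi pow_expand)
open Pool.Agent.Q152.QT (gm)

/-- the shifted coefficients -/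
noncomputable def us (b : Bool) (a : ℕ → ℝ) (V : ℝ → ℝ) (M y u : ℝ) (n : ℤ) : ℂ :=
  ut b a V M y n * ee ((n : ℝ) * u)

theorem us_neg (b : Bool) (a : ℕ → ℝ) (V : ℝ → ℝ) (M y u : ℝ) (m : ℤ) :
    us b a V M y u (-m) = (starRingEnd ℂ) (us b a V M y u m) := by
  unfold us
  rw [map_mul, ut_neg, Pool.Agent.Q153.L2.conj_ee]
  congr 2
  push_cast
  ring

theorem us_norm (b : Bool) (a : ℕ → ℝ) (V : ℝ → ℝ) (M y u : ℝ) (m : ℤ) :
    ‖us b a V M y u m‖ = ‖ut b a V M y m‖ := by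
  unfold us
  rw [norm_mul, Pool.Agent.Q153.L2.norm_ee, mul_one]

/-- all mixed moments for one modulus and one level -/
def Mix {ι : Type} (a : ι → ℕ → ℝ) (V : ι → ℝ → ℝ) (h₀ h₁ : ℝ) (k : ℕ) (f : ℕ → ℝ) (J : ℕ) (B : ℝ) : Prop :=
  ∀ (i : Fin k → ι) (b : Fin k → Bool) (u y : Fin k → ℝ) (α β : ℝ),
    (∀ j, h₀ * (2 : ℝ) ^ (-(J : ℝ)) ≤ y j ∧ y j ≤ h₁ * (2 : ℝ) ^ (-(J : ℝ))) → 0 ≤ α → α ≤ β → β ≤ 1 →
      |(∫ x in α..β, ∏ j, uf (b j) f (a (i j)) (V (i j)) (x + u j) (y j)) - (β - α) *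
        (DB k (4 ^ J) (fun j n => ut (b j) (a (i j)) (V (i j)) (4 ^ J) (y j) n * ee ((n : ℝ) * u j))).re| ≤ B

theorem moment_DB' {ι : Type} (a : ι → ℕ → ℝ) (V : ι → ℝ → ℝ) (f : ℕ → ℝ) (h₀ h₁ : ℝ) (h0 : 0 < h₀)
    (hcc : ∀ (i : ι) (b : Bool) (y : ℝ), 0 < y → Continuous fun x => uf b f (a i) (V i) x y)
    (k J : ℕ) (B : ℝ) (h : Mix a V h₀ h₁ k f J B)
    (I : ℕ) (i : Fin I → ι) (b : Fin I → Bool) (l u y : Fin I → ℝ) (α β : ℝ)
    (hl : ∀ j, |l j| ≤ 1)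
    (hy : ∀ j, h₀ * (2 : ℝ) ^ (-(J : ℝ)) ≤ y j ∧ y j ≤ h₁ * (2 : ℝ) ^ (-(J : ℝ)))
    (hα : 0 ≤ α) (hαβ : α ≤ β) (hβ : β ≤ 1) :
    |(∫ x in α..β, (∑ j, l j * uf (b j) f (a (i j)) (V (i j)) (x + u j) (y j)) ^ k) - (β - α) *
      (DB k (4 ^ J) (fun _ => bc l fun j => us (b j) (a (i j)) (V (i j)) (4 ^ J) (y j) (u j))).re| ≤
      (I : ℝ) ^ k * B := by
  classical
  have hy0 : ∀ j, 0 < y j := fun j => lt_of_lt_of_le (by positivity) (hy j).1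
  have hcont : ∀ j, Continuous fun x => uf (b j) f (a (i j)) (V (i j)) (x + u j) (y j) := by
    intro j
    exact (hcc (i j) (b j) (y j) (hy0 j)).comp (continuous_id.add continuous_const)
  have h1 : ∀ x, (∑ j, l j * uf (b j) f (a (i j)) (V (i j)) (x + u j) (y j)) ^ k =
      ∑ p : Fin k → Fin I, (∏ r, l (p r)) *
        ∏ r, uf (b (p r)) f (a (i (p r))) (V (i (p r))) (x + u (p r)) (y (p r)) := by
    intro x
    rw [pow_expand]
    exact Finset.sum_congr rfl fun p _ => Finset.prod_mul_distrib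
  have hii : ∀ p : Fin k → Fin I, IntervalIntegrable (fun x => (∏ r, l (p r)) *
      ∏ r, uf (b (p r)) f (a (i (p r))) (V (i (p r))) (x + u (p r)) (y (p r))) volume α β := by
    intro p
    apply Continuous.intervalIntegrable
    exact continuous_const.mul (continuous_finsetProd _ fun r _ => hcont (p r))
  simp only [h1]
  rw [intervalIntegral.integral_finsetSum fun p _ => hii p, DB_multi, Complex.re_sum,
    Finset.mul_sum, ← Finset.sum_sub_distrib]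
  refine (Finset.abs_sum_le_sum_abs _ _).trans ?_
  have h2 : ∀ p : Fin k → Fin I, |(∫ x in α..β, (∏ r, l (p r)) *
      ∏ r, uf (b (p r)) f (a (i (p r))) (V (i (p r))) (x + u (p r)) (y (p r))) -
      (β - α) * (((∏ r, l (p r) : ℝ) : ℂ) *
      DB k (4 ^ J) (fun r => us (b (p r)) (a (i (p r))) (V (i (p r))) (4 ^ J)
        (y (p r)) (u (p r)))).re| ≤ B := by
    intro p
    have h3 := h (fun r => i (p r)) (fun r => b (p r)) (fun r => u (p r)) (fun r => y (p r)) α β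
      (fun r => hy (p r)) hα hαβ hβ
    rw [intervalIntegral.integral_const_mul, Complex.re_ofReal_mul]
    have h4 : ∀ P U V : ℝ, P * U - (β - α) * (P * V) = P * (U - (β - α) * V) := fun P U V => by ring
    rw [h4, abs_mul, Finset.abs_prod]
    have h5 : ∏ r, |l (p r)| ≤ 1 := Finset.prod_le_one (fun r _ => abs_nonneg _) fun r _ => hl (p r)
    calc (∏ r, |l (p r)|) * _ ≤ 1 * _ := mul_le_mul_of_nonneg_right h5 (abs_nonneg _)
      _ ≤ _ := by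
        rw [one_mul]
        exact h3
  refine (Finset.sum_le_sum fun p _ => h2 p).trans (le_of_eq ?_)
  rw [Finset.sum_const, Finset.card_univ, Fintype.card_fun, Fintype.card_fin, Fintype.card_fin, nsmul_eq_mul]
  push_cast
  rfl

/-- the mean square of a combination -/
theorem mean_cv {I : ℕ} (X : ℕ) (l : Fin I → ℝ) (hl : ∀ j, |l j| ≤ 1) (β : Fin I → ℤ → ℂ)
    (hβ : ∀ j m, β j (-m) = (starRingEnd ℂ) (β j m)) (w : Fin I → Fin I → ℝ) (δ : ℝ)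
    (h : ∀ p q, ‖∑ n ∈ Bx X, β p n * β q (-n) - ((w p q : ℝ) : ℂ)‖ ≤ δ) :
    |∑ m ∈ Bx X, ‖bc l β m‖ ^ 2 - ∑ p, ∑ q, l p * l q * w p q| ≤ (I : ℝ) ^ 2 * δ := by
  have h1 : ((∑ m ∈ Bx X, ‖bc l β m‖ ^ 2 : ℝ) : ℂ) =
      ∑ p, ∑ q, ((l p * l q : ℝ) : ℂ) * ∑ n ∈ Bx X, β p n * β q (-n) := by
    rw [Complex.ofReal_sum]
    have e1 : ∀ m : ℤ, ((‖bc l β m‖ ^ 2 : ℝ) : ℂ) =
        ∑ p, ∑ q, ((l p * l q : ℝ) : ℂ) * (β p m * β q (-m)) := by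
      intro m
      have e2 : ((‖bc l β m‖ ^ 2 : ℝ) : ℂ) = bc l β m * bc l β (-m) := by
        rw [bc_neg l β hβ m, Complex.mul_conj, Complex.normSq_eq_norm_sq]
      rw [e2]
      unfold bc
      rw [Finset.sum_mul_sum]
      refine Finset.sum_congr rfl fun p _ => Finset.sum_congr rfl fun q _ => ?_
      push_cast
      ring
    simp only [e1]
    rw [Finset.sum_comm]
    refine Finset.sum_congr rfl fun p _ => ?_
    rw [Finset.sum_comm]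
    refine Finset.sum_congr rfl fun q _ => ?_
    rw [Finset.mul_sum]
  have h2 : ((∑ m ∈ Bx X, ‖bc l β m‖ ^ 2 - ∑ p, ∑ q, l p * l q * w p q : ℝ) : ℂ) =
      ∑ p, ∑ q, ((l p * l q : ℝ) : ℂ) * (∑ n ∈ Bx X, β p n * β q (-n) - ((w p q : ℝ) : ℂ)) := by
    rw [Complex.ofReal_sub, h1]
    push_cast
    rw [← Finset.sum_sub_distrib]
    refine Finset.sum_congr rfl fun p _ => ?_
    rw [← Finset.sum_sub_distrib]
    refine Finset.sum_congr rfl fun q _ => ?_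
    ring
  have h3 : |∑ m ∈ Bx X, ‖bc l β m‖ ^ 2 - ∑ p, ∑ q, l p * l q * w p q| =
      ‖((∑ m ∈ Bx X, ‖bc l β m‖ ^ 2 - ∑ p, ∑ q, l p * l q * w p q : ℝ) : ℂ)‖ := by
    rw [Complex.norm_real, Real.norm_eq_abs]
  rw [h3, h2]
  calc ‖∑ p, ∑ q, ((l p * l q : ℝ) : ℂ) * (∑ n ∈ Bx X, β p n * β q (-n) - ((w p q : ℝ) : ℂ))‖
      ≤ ∑ _p : Fin I, ∑ _q : Fin I, δ := by
        refine (norm_sum_le _ _).trans (Finset.sum_le_sum fun p _ => ?_)
        refine (norm_sum_le _ _).trans (Finset.sum_le_sum fun q _ => ?_)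
        rw [norm_mul, Complex.norm_real, Real.norm_eq_abs, abs_mul]
        have g1 : |l p| * |l q| ≤ 1 := by
          have := mul_le_mul (hl p) (hl q) (abs_nonneg _) zero_le_one
          simpa using this
        calc |l p| * |l q| * ‖∑ n ∈ Bx X, β p n * β q (-n) - ((w p q : ℝ) : ℂ)‖
            ≤ 1 * ‖∑ n ∈ Bx X, β p n * β q (-n) - ((w p q : ℝ) : ℂ)‖ :=
              mul_le_mul_of_nonneg_right g1 (norm_nonneg _)
          _ ≤ δ := by rw [one_mul]; exact h p q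
    _ = (I : ℝ) ^ 2 * δ := by
        rw [Finset.sum_const, Finset.sum_const, Finset.card_univ, Fintype.card_fin, nsmul_eq_mul,
          nsmul_eq_mul]
        ring

/-- the double sum of covariances is bounded -/
theorem sum_bd {I : ℕ} (l : Fin I → ℝ) (hl : ∀ j, |l j| ≤ 1) (w : Fin I → Fin I → ℝ) (K : ℝ)
    (h : ∀ p q, |w p q| ≤ K) : |∑ p, ∑ q, l p * l q * w p q| ≤ (I : ℝ) ^ 2 * K := by
  calc |∑ p, ∑ q, l p * l q * w p q| ≤ ∑ _p : Fin I, ∑ _q : Fin I, K := by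
        refine (Finset.abs_sum_le_sum_abs _ _).trans (Finset.sum_le_sum fun p _ => ?_)
        refine (Finset.abs_sum_le_sum_abs _ _).trans (Finset.sum_le_sum fun q _ => ?_)
        rw [abs_mul, abs_mul]
        have g1 : |l p| * |l q| ≤ 1 := by
          have := mul_le_mul (hl p) (hl q) (abs_nonneg _) zero_le_one
          simpa using this
        calc |l p| * |l q| * |w p q| ≤ 1 * |w p q| := mul_le_mul_of_nonneg_right g1 (abs_nonneg _)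
          _ ≤ K := by rw [one_mul]; exact h p q
    _ = (I : ℝ) ^ 2 * K := by
        rw [Finset.sum_const, Finset.sum_const, Finset.card_univ, Fintype.card_fin, nsmul_eq_mul,
          nsmul_eq_mul]
        ring

/-- the size of a combination -/
theorem bc_size {ι : Type} [Fintype ι] (a : ι → ℕ → ℝ) (V V' : ι → ℝ → ℝ)
    (hC : Coef (fun _ => (1 : ℝ)) a) (hV : ∀ i, Adm (V i) (V' i)) (h₀ h₁ : ℝ) (h0 : 0 < h₀) (h01 : h₀ ≤ h₁) (I : ℕ) :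
    ∃ D : ℝ, 0 ≤ D ∧ ∀ (J : ℕ) (i : Fin I → ι) (b : Fin I → Bool) (l u y : Fin I → ℝ), (∀ j, |l j| ≤ 1) →
      (∀ j, h₀ * (2 : ℝ) ^ (-(J : ℝ)) ≤ y j ∧ y j ≤ h₁ * (2 : ℝ) ^ (-(J : ℝ))) → ∀ m : ℤ,
        ‖bc l (fun j => us (b j) (a (i j)) (V (i j)) (4 ^ J) (y j) (u j)) m‖ ≤ D * P2 ((0 - 1 / 8) * J) := by
  obtain ⟨A, hA1, hA⟩ := coef_bd a hC
  have hA0 : 0 ≤ A := by linarith
  choose C₀ c₀ hc₀ hVV using hV
  have hC₀ : ∀ i, 0 ≤ C₀ i := fun i => adm_nonneg (hVV i)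
  have hh1 : 0 < h₁ := h0.trans_le h01
  obtain ⟨S, hS⟩ : ∃ S : ℝ, S = ∑ i, A * C₀ i * (1 + 1 / c₀ i) := ⟨_, rfl⟩
  have hnn : ∀ i, 0 ≤ A * C₀ i * (1 + 1 / c₀ i) := fun i => by
    have := hC₀ i
    have := hc₀ i
    positivity
  have hSi : ∀ i, A * C₀ i * (1 + 1 / c₀ i) ≤ S := fun i => by
    rw [hS]
    exact Finset.single_le_sum (f := fun i => A * C₀ i * (1 + 1 / c₀ i)) (fun i _ => hnn i) (Finset.mem_univ i)
  have hS0 : 0 ≤ S := by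
    rw [hS]
    exact Finset.sum_nonneg fun i _ => hnn i
  refine ⟨I * (S * h₁ ^ (1 / 4 : ℝ)), by positivity, ?_⟩
  intro J i b l u y hl hy m
  have hJ0 : (0 : ℝ) ≤ J := Nat.cast_nonneg J
  refine (bc_norm l _ hl m).trans ?_
  calc ∑ j, ‖us (b j) (a (i j)) (V (i j)) (4 ^ J) (y j) (u j) m‖
      ≤ ∑ _j : Fin I, (S * h₁ ^ (1 / 4 : ℝ)) * P2 ((0 - 1 / 8) * J) := by
        refine Finset.sum_le_sum fun j _ => ?_
        rw [us_norm]
        have hyj : 0 < y j := lt_of_lt_of_le (by positivity) (hy j).1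
        refine (ut_norm hA0 (hC₀ (i j)) (hc₀ (i j)) (fun n hn => hA (i j) n hn)
          (fun u hu => (hVV (i j) u hu).2.1) hyj m).trans ?_
        have e1 : y j ^ (1 / 4 : ℝ) ≤ h₁ ^ (1 / 4 : ℝ) * P2 ((0 - 1 / 8) * J) := by
          calc y j ^ (1 / 4 : ℝ) ≤ (h₁ * P2 (-(J : ℝ))) ^ (1 / 4 : ℝ) :=
                Real.rpow_le_rpow hyj.le (hy j).2 (by norm_num)
            _ = h₁ ^ (1 / 4 : ℝ) * P2 (-(J : ℝ) * (1 / 4)) := by
                rw [Real.mul_rpow hh1.le (P2_pos _).le, P2_rpow]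
            _ ≤ _ := by
                refine mul_le_mul_of_nonneg_left (P2_le ?_) (by positivity)
                linarith
        calc A * C₀ (i j) * (1 + 1 / c₀ (i j)) * y j ^ (1 / 4 : ℝ)
            ≤ S * (h₁ ^ (1 / 4 : ℝ) * P2 ((0 - 1 / 8) * J)) :=
              mul_le_mul (hSi _) e1 (by positivity) hS0
          _ = _ := by ring
    _ = _ := by
        rw [Finset.sum_const, Finset.card_univ, Fintype.card_fin, nsmul_eq_mul]
        ring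

/-- the case `k ≥ 2`, for one modulus and one level -/
theorem two_step (k I : ℕ) (B : ℝ) (hB0 : 0 ≤ B)
    (hB : ∀ (X : ℕ) (β : ℤ → ℂ) (σ : ℝ), (∀ m, β (-m) = (starRingEnd ℂ) (β m)) → (∀ m, ‖β m‖ ^ 2 ≤ σ) →
      ‖DB (k + 2) X (fun _ => β) - (((gm (k + 2) : ℝ) * √(∑ m ∈ Bx X, ‖β m‖ ^ 2) ^ (k + 2) : ℝ) : ℂ)‖ ≤
        B * σ * √(∑ m ∈ Bx X, ‖β m‖ ^ 2) ^ k)
    (D₁ K ck Ck c₂ C₂ : ℝ) (hD₁ : 0 ≤ D₁) (hK : 0 ≤ K) (hck : 0 < ck) (hCk : 0 ≤ Ck) (hc₂ : 0 < c₂) (hC₂ : 0 ≤ C₂) :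
    ∃ c C : ℝ, 0 < c ∧ 0 ≤ C ∧ ∀ (J X : ℕ) (l : Fin I → ℝ) (hl : ∀ j, |l j| ≤ 1) (β : Fin I → ℤ → ℂ)
      (hβ : ∀ j m, β j (-m) = (starRingEnd ℂ) (β j m))
      (hsize : ∀ m, ‖bc l β m‖ ≤ D₁ * P2 ((0 - 1 / 8) * J))
      (w : Fin I → Fin I → ℝ) (hw : ∀ p q, |w p q| ≤ K)
      (hvar : ∀ p q, ‖∑ n ∈ Bx X, β p n * β q (-n) - ((w p q : ℝ) : ℂ)‖ ≤ C₂ * (2 : ℝ) ^ (-(c₂ * J)))
      (Z δ : ℝ) (hδ0 : 0 ≤ δ) (hδ1 : δ ≤ 1)
      (hZ : |Z - δ * (DB (k + 2) X (fun _ => bc l β)).re| ≤ (I : ℝ) ^ (k + 2) * (Ck * (2 : ℝ) ^ (-(ck * J)))),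
      |Z - δ * (gm (k + 2) * √(∑ p, ∑ q, l p * l q * w p q) ^ (k + 2))| ≤ C * (2 : ℝ) ^ (-(c * J)) := by
  have hI0 : (0 : ℝ) ≤ I := Nat.cast_nonneg I
  obtain ⟨E, hE⟩ : ∃ E : ℝ, E = (I : ℝ) ^ 2 * C₂ := ⟨_, rfl⟩
  have hE0 : 0 ≤ E := by
    rw [hE]
    positivity
  obtain ⟨F, hF⟩ : ∃ F : ℝ, F = (I : ℝ) ^ 2 * K := ⟨_, rfl⟩
  have hF0 : 0 ≤ F := by
    rw [hF]
    positivity
  obtain ⟨D, hD⟩ : ∃ D : ℝ, D = 1 + D₁ + √(F + E) := ⟨_, rfl⟩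
  have hsq := Real.sqrt_nonneg (F + E)
  have hD1 : 1 ≤ D := by linarith
  have hD0 : 0 ≤ D := by linarith
  have hgm : (0 : ℝ) ≤ gm (k + 2) := Nat.cast_nonneg _
  obtain ⟨c, hc⟩ : ∃ c : ℝ, c = min ck (min (1 / 4) (c₂ / 2)) := ⟨_, rfl⟩
  have hc0 : 0 < c := by
    rw [hc]
    exact lt_min hck (lt_min (by norm_num) (by linarith))
  have hca : c ≤ ck := by
    rw [hc]
    exact min_le_left _ _
  have hcb : c ≤ 1 / 4 := by
    rw [hc]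
    exact (min_le_right _ _).trans (min_le_left _ _)
  have hcc : c ≤ c₂ / 2 := by
    rw [hc]
    exact (min_le_right _ _).trans (min_le_right _ _)
  refine ⟨c, (I : ℝ) ^ (k + 2) * Ck + B * D ^ (k + 2) + gm (k + 2) * (√E * (k + 2) * D ^ (k + 1)), hc0,
    by positivity, ?_⟩
  intro J X l hl β hβ hsize w hw hvar Z δ hδ0 hδ1 hZ
  have hJ0 : (0 : ℝ) ≤ J := Nat.cast_nonneg J
  obtain ⟨γ, hγ⟩ : ∃ γ : ℤ → ℂ, γ = bc l β := ⟨_, rfl⟩
  have hneg : ∀ m, γ (-m) = (starRingEnd ℂ) (γ m) := by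
    rw [hγ]
    exact bc_neg l β hβ
  have hmean := mean_cv X l hl β hβ w _ hvar
  have hsum := sum_bd l hl w K hw
  rw [← hγ] at hmean hsize hZ
  obtain ⟨V, hVd⟩ : ∃ V, V = ∑ m ∈ Bx X, ‖γ m‖ ^ 2 := ⟨_, rfl⟩
  obtain ⟨W, hWd⟩ : ∃ W, W = ∑ p, ∑ q, l p * l q * w p q := ⟨_, rfl⟩
  rw [← hVd, ← hWd] at hmean
  rw [← hWd, ← hF] at hsum
  rw [← hWd]
  have hV0 : 0 ≤ V := by
    rw [hVd]
    positivity
  have p1 : ∀ c : ℝ, (2 : ℝ) ^ (-(c * J)) = P2 (-c * J) := fun c => by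
    unfold P2
    congr 1
    ring
  rw [p1] at hmean hZ
  rw [p1]
  have hmean' : |V - W| ≤ E * P2 (-c₂ * J) := by
    refine hmean.trans (le_of_eq ?_)
    rw [hE]
    ring
  have hP1 : P2 (-c₂ * J) ≤ 1 := by
    calc P2 (-c₂ * J) ≤ P2 0 := P2_le (by nlinarith)
      _ = 1 := P2_zero
  have hVle : V ≤ F + E := by
    have t1 : V - W ≤ |V - W| := le_abs_self _
    have t2 : W ≤ |W| := le_abs_self _
    have t3 : E * P2 (-c₂ * J) ≤ E * 1 := mul_le_mul_of_nonneg_left hP1 hE0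
    linarith
  have hsV : √V ≤ D := by
    have := Real.sqrt_le_sqrt hVle
    linarith
  have hsW : √W ≤ D := by
    have t2 : W ≤ |W| := le_abs_self _
    have := Real.sqrt_le_sqrt (show W ≤ F + E by linarith)
    linarith
  have e7 : |√V - √W| ≤ √E * P2 (-(c₂ / 2) * J) := by
    refine (sqrt_diff' V W hV0).trans ?_
    rw [show √E * P2 (-(c₂ / 2) * J) = √(E * P2 (-c₂ * J)) by
      rw [Real.sqrt_mul hE0]
      congr 1
      rw [show P2 (-c₂ * J) = P2 (-(c₂ / 2) * J) ^ 2 by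
        rw [P2_pow]
        congr 1
        push_cast
        ring]
      exact (Real.sqrt_sq (P2_pos _).le).symm]
    exact Real.sqrt_le_sqrt hmean'
  have e2 := bal_step k X B D 0 hB0 hD1 J γ (fun σ h1 h2 => hB X γ σ h1 h2) hneg
    (fun m => (hsize m).trans (mul_le_mul_of_nonneg_right (by linarith) (P2_pos _).le))
    (by
      rw [← hVd, zero_mul, P2_zero, mul_one]
      exact hsV)
  rw [← hVd] at e2
  have e9 : |√V ^ (k + 2) - √W ^ (k + 2)| ≤ √E * (k + 2) * D ^ (k + 1) * P2 (-(c₂ / 2) * J) := by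
    have t1 := abs_pow_sub_pow_le (√V) (√W) (k + 2)
    have t2 : max |√V| |√W| ≤ D := by
      rw [abs_of_nonneg (Real.sqrt_nonneg _), abs_of_nonneg (Real.sqrt_nonneg _)]
      exact max_le hsV hsW
    have t3 : 0 ≤ max |√V| |√W| := le_max_of_le_left (abs_nonneg _)
    calc |√V ^ (k + 2) - √W ^ (k + 2)| ≤ |√V - √W| * ((k + 2 : ℕ) : ℝ) * max |√V| |√W| ^ (k + 2 - 1) := t1
      _ ≤ (√E * P2 (-(c₂ / 2) * J)) * ((k + 2 : ℕ) : ℝ) * D ^ (k + 1) := by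
          apply mul_le_mul _ _ (by positivity) (by have := P2_pos (-(c₂ / 2) * J); positivity)
          · exact mul_le_mul_of_nonneg_right e7 (Nat.cast_nonneg _)
          · exact pow_le_pow_left₀ t3 t2 (k + 1)
      _ = _ := by
          push_cast
          ring
  have u1 : P2 (-ck * J) ≤ P2 (-c * J) := P2_le (mul_le_mul_of_nonneg_right (neg_le_neg hca) hJ0)
  have u2 : P2 (-(c₂ / 2) * J) ≤ P2 (-c * J) := P2_le (mul_le_mul_of_nonneg_right (neg_le_neg hcc) hJ0)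
  have u3 : P2 ((0 * (k + 2) - 1 / 4) * J) ≤ P2 (-c * J) := P2_le
    (mul_le_mul_of_nonneg_right (by linarith) hJ0)
  obtain ⟨R, hR⟩ : ∃ R, R = (DB (k + 2) X (fun _ => γ)).re := ⟨_, rfl⟩
  rw [← hR] at hZ e2
  have w1 : Z - δ * (gm (k + 2) * √W ^ (k + 2)) = (Z - δ * R) +
      δ * ((R - gm (k + 2) * √V ^ (k + 2)) + gm (k + 2) * (√V ^ (k + 2) - √W ^ (k + 2))) := by ring
  have w2 : |δ * ((R - gm (k + 2) * √V ^ (k + 2)) + gm (k + 2) * (√V ^ (k + 2) - √W ^ (k + 2)))| ≤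
      B * D ^ (k + 2) * P2 ((0 * (k + 2) - 1 / 4) * J) +
        gm (k + 2) * (√E * (k + 2) * D ^ (k + 1) * P2 (-(c₂ / 2) * J)) := by
    rw [abs_mul, abs_of_nonneg hδ0]
    calc δ * |(R - gm (k + 2) * √V ^ (k + 2)) + gm (k + 2) * (√V ^ (k + 2) - √W ^ (k + 2))| ≤
          1 * |(R - gm (k + 2) * √V ^ (k + 2)) + gm (k + 2) * (√V ^ (k + 2) - √W ^ (k + 2))| :=
          mul_le_mul_of_nonneg_right hδ1 (abs_nonneg _)
      _ ≤ |R - gm (k + 2) * √V ^ (k + 2)| + |gm (k + 2) * (√V ^ (k + 2) - √W ^ (k + 2))| := by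
          rw [one_mul]
          exact abs_add_le _ _
      _ ≤ _ := by
          rw [abs_mul, abs_of_nonneg hgm]
          exact add_le_add e2 (mul_le_mul_of_nonneg_left e9 hgm)
  rw [w1]
  refine (abs_add_le _ _).trans ((add_le_add hZ w2).trans ?_)
  have x1 : (I : ℝ) ^ (k + 2) * (Ck * P2 (-ck * J)) ≤ (I : ℝ) ^ (k + 2) * Ck * P2 (-c * J) := by
    rw [← mul_assoc]
    exact mul_le_mul_of_nonneg_left u1 (by positivity)
  have x2 : B * D ^ (k + 2) * P2 ((0 * (k + 2) - 1 / 4) * J) ≤ B * D ^ (k + 2) * P2 (-c * J) :=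
    mul_le_mul_of_nonneg_left u3 (by positivity)
  have x3 : (gm (k + 2) : ℝ) * (√E * (k + 2) * D ^ (k + 1) * P2 (-(c₂ / 2) * J)) ≤
      gm (k + 2) * (√E * (k + 2) * D ^ (k + 1) * P2 (-c * J)) :=
    mul_le_mul_of_nonneg_left (mul_le_mul_of_nonneg_left u2 (by positivity)) hgm
  calc _ ≤ (I : ℝ) ^ (k + 2) * Ck * P2 (-c * J) + (B * D ^ (k + 2) * P2 (-c * J) +
        gm (k + 2) * (√E * (k + 2) * D ^ (k + 1) * P2 (-c * J))) :=
        add_le_add x1 (add_le_add x2 x3)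
    _ = _ := by ring

/-- the covariances are uniformly bounded -/
theorem cv_unif {ι : Type} [Fintype ι] (V V' : ι → ℝ → ℝ) (κ : ι → ι → ℝ) (hV : ∀ i, Adm (V i) (V' i))
    (h₀ h₁ L : ℝ) (h0 : 0 < h₀) (h01 : h₀ ≤ h₁) (hL : 0 < L) :
    ∃ K : ℝ, 0 ≤ K ∧ ∀ (i j : ι) (b b' : Bool) (h h' τ : ℝ), h₀ ≤ h → h ≤ h₁ → h₀ ≤ h' → h' ≤ h₁ → |τ| ≤ 2 * L →
      |cv (κ i j) (V i) (V j) b b' h h' τ| ≤ K := by
  choose C₀ c₀ hc₀ hVV using hV
  have hC₀ : ∀ i, 0 ≤ C₀ i := fun i => adm_nonneg (hVV i)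
  have hh1 : 0 < h₁ := h0.trans_le h01
  have hpi := Real.pi_pos
  obtain ⟨F, hF⟩ : ∃ F : ι → ι → ℝ, F = fun i j =>
    |κ i j| / 2 * ((h₁ * (C₀ i * C₀ j) * (2 + 4 * Real.pi * L)) / ((c₀ i + c₀ j) * h₀)) := ⟨_, rfl⟩
  have hF0 : ∀ i j, 0 ≤ F i j := fun i j => by
    rw [hF]
    have := hC₀ i
    have := hC₀ j
    have := hc₀ i
    have := hc₀ j
    positivity
  refine ⟨∑ i, ∑ j, F i j, Finset.sum_nonneg fun i _ => Finset.sum_nonneg fun j _ => hF0 i j, ?_⟩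
  intro i j b b' h h' τ ha hb ha' hb' hτ
  have h1 := cv_bd (κ := κ i j) (hc₀ i) (hc₀ j) (hC₀ i) (hC₀ j) (fun u hu => (hVV i u hu).2)
    (fun u hu => (hVV j u hu).2) h0 hL.le b b' ha hb ha' hb' hτ
  have h2 : F i j ≤ ∑ j, F i j :=
    Finset.single_le_sum (f := fun j => F i j) (fun j _ => hF0 i j) (Finset.mem_univ j)
  have h3 : ∑ j, F i j ≤ ∑ i, ∑ j, F i j :=
    Finset.single_le_sum (f := fun i => ∑ j, F i j) (fun i _ => Finset.sum_nonneg fun j _ => hF0 i j)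
      (Finset.mem_univ i)
  rw [hF] at h2 h3
  rw [hF]
  exact h1.trans (h2.trans h3)

/-- **Job 31161.** -/
theorem yd (h1 : S_YC) (h2 : S_YV) (h3 : S_BAL) : S_YD := by
  intro ι _ a V V' κ hC hV hG h₀ h₁ L k I h0 h01 hL _
  have hh1 : 0 < h₁ := h0.trans_le h01
  have hcc : ∀ (m : ℕ) (i : ι) (b : Bool) (y : ℝ), 0 < y → Continuous fun x => uf b (jc m) (a i) (V i) x y := by
    intro m i b y hy
    obtain ⟨A, hA1, hA⟩ := coef_bd a hC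
    obtain ⟨C₀, c₀, hc₀, hVV⟩ := hV i
    exact uf_cont b (jc m) (Pool.Agent.Q153.L2.jc_abs m) (a i) (V i) (by linarith : (0 : ℝ) ≤ A)
      (adm_nonneg hVV) hc₀ (fun n hn => hA i n hn) (fun u hu => (hVV u hu).2.1) hy
  have hyr : ∀ (J : ℕ) (h : Fin I → ℝ) (y : ℝ), (2 : ℝ) ^ (-(J : ℝ)) ≤ y → y ≤ 2 * (2 : ℝ) ^ (-(J : ℝ)) →
      (∀ j, h₀ ≤ h j ∧ h j ≤ h₁) → ∀ j, h₀ * (2 : ℝ) ^ (-(J : ℝ)) ≤ y * h j ∧ y * h j ≤ 2 * h₁ * (2 : ℝ) ^ (-(J : ℝ)) := by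
    intro J h y hy1 hy2 hh j
    have hp : (0 : ℝ) < (2 : ℝ) ^ (-(J : ℝ)) := by positivity
    constructor
    · calc h₀ * (2 : ℝ) ^ (-(J : ℝ)) ≤ h j * y := mul_le_mul (hh j).1 hy1 hp.le (h0.le.trans (hh j).1)
        _ = _ := mul_comm _ _
    · calc y * h j ≤ (2 * (2 : ℝ) ^ (-(J : ℝ))) * h₁ :=
            mul_le_mul hy2 (hh j).2 (h0.le.trans (hh j).1) (by positivity)
        _ = _ := by ring
  match k with
  | 0 =>
    refine ⟨1, 0, one_pos, le_rfl, Alm.of_forall fun J m _ _ => ?_⟩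
    intro i b l τ h y α β _ _ _ _ _ _ _ _
    have g0 : gm 0 = 1 := by decide
    simp only [pow_zero, g0, Nat.cast_one, mul_one, intervalIntegral.integral_const, smul_eq_mul, sub_self,
      abs_zero, zero_mul, le_refl]
  | 1 =>
    obtain ⟨c, C, hc, hC0, h⟩ := h1 ι a V V' hC hV h₀ (2 * h₁) 1 h0 (by linarith) le_rfl
    refine ⟨c, I * C, hc, by positivity, h.mono fun J m hm hR => ?_⟩
    intro i b l τ h y α β hy1 hy2 hl hτ hh hα hαβ hβ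
    have e1 := moment_DB' a V (jc m) h₀ (2 * h₁) h0 (hcc m) 1 J _
      (fun i b u y α β => hm hR i b u y α β) I i b l (fun j => y * τ j) (fun j => y * h j) α β hl
      (hyr J h y hy1 hy2 hh) hα hαβ hβ
    rw [DB_one, Complex.zero_re, mul_zero, sub_zero] at e1
    have g1 : gm 1 = 0 := by decide
    rw [g1, Nat.cast_zero, zero_mul, mul_zero, sub_zero]
    refine e1.trans (le_of_eq ?_)
    rw [pow_one]
    ring
  | k + 2 =>
    obtain ⟨ck, Ck, hck, hCk, hk⟩ := h1 ι a V V' hC hV h₀ (2 * h₁) (k + 2) h0 (by linarith) (by omega)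
    obtain ⟨c₂, C₂, hc₂, hC₂, hvar⟩ := h2 ι a V V' κ hC hV hG h₀ h₁ L h0 h01 hL
    obtain ⟨K, hK0, hK⟩ := cv_unif V V' κ hV h₀ h₁ L h0 h01 hL
    obtain ⟨D₁, hD₁, hsz⟩ := bc_size a V V' hC hV h₀ (2 * h₁) h0 (by linarith) I
    obtain ⟨B, hB0, hB⟩ := h3 k
    obtain ⟨c, C, hc, hC0, h⟩ := two_step k I B hB0 hB D₁ K ck Ck c₂ C₂ hD₁ hK0 hck hCk hc₂ hC₂
    refine ⟨c, C, hc, hC0, hk.mono fun J m hm hR => ?_⟩
    intro i b l τ hgt y α β hy1 hy2 hl hτ hh hα hαβ hβ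
    have e1 := moment_DB' a V (jc m) h₀ (2 * h₁) h0 (hcc m) (k + 2) J _
      (fun i b u y α β => hm hR i b u y α β) I i b l (fun j => y * τ j) (fun j => y * hgt j) α β hl
      (hyr J hgt y hy1 hy2 hh) hα hαβ hβ
    refine h J (4 ^ J) l hl (fun j => us (b j) (a (i j)) (V (i j)) (4 ^ J) (y * hgt j) (y * τ j))
      (fun j m => us_neg _ _ _ _ _ _ m)
      (fun m => hsz J i b l (fun j => y * τ j) (fun j => y * hgt j) hl (hyr J hgt y hy1 hy2 hh) m)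
      (fun p q => cv (κ (i p) (i q)) (V (i p)) (V (i q)) (b p) (b q) (hgt p) (hgt q) (τ p - τ q)) ?_ ?_ _ (β - α)
      (by linarith) (by linarith) e1
    · intro p q
      refine hK (i p) (i q) (b p) (b q) (hgt p) (hgt q) _ (hh p).1 (hh p).2 (hh q).1 (hh q).2 ?_
      calc |τ p - τ q| ≤ |τ p| + |τ q| := abs_sub _ _
        _ ≤ 2 * L := by linarith [hτ p, hτ q]
    · intro p q
      exact hvar J (i p) (i q) (b p) (b q) (τ p) (τ q) (hgt p) (hgt q) y hy1 hy2 (hτ p) (hτ q) (hh p).1 (hh p).2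
        (hh q).1 (hh q).2

end Pool.Agent.Q38.L2Y
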