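import Pool.Agent.Q38.L2Y.YV
import Pool.Agent.Q153.L2.Gmdq

/-!
# The Gaussian field: size and continuity
-/

set_option autoImplicit false

namespace Pool.Agent.Q38.L2Y

open Finset MeasureTheory Filter Topology
open Pool.Agent.Q255.L2 Pool.Agent.Q255.L2Y Pool.Agent.Q255.EP Pool.Agent.Q162.L2.GMB
open Pool.Agent.Q162.L2.GMD (bc bc_neg bc_norm sqrt_diff bal_step DB_one DB_multi pow_expand)
open Pool.Agent.Q152.QT (gm)

theorem coef_bd {ι : Type} (a : ι → ℕ → ℝ) (h : Coef (fun _ => (1 : ℝ)) a) :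
    ∃ A : ℝ, 1 ≤ A ∧ ∀ i n, 1 ≤ n → |a i n| ≤ A * (n : ℝ) ^ (1 / 4 : ℝ) := by
  obtain ⟨C, hC⟩ := h.1 1 one_pos
  refine ⟨1 + |C|, by have := abs_nonneg C; linarith, ?_⟩
  intro i n hn
  have hn1 : (1 : ℝ) ≤ n := by exact_mod_cast hn
  have hn0 : (0 : ℝ) < n := by linarith
  have h1 : a i n ^ 8 ≤ C * ((n : ℝ) * 1) * n := by
    have h2 := hC i n hn
    rw [Real.rpow_one] at h2
    have h3 : a i n ^ 8 ≤ ∑ m ∈ Icc 1 n, a i m ^ 8 :=
      Finset.single_le_sum (f := fun m => a i m ^ 8) (fun m _ => by positivity) (Finset.mem_Icc.2 ⟨hn, le_rfl⟩)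
    exact h3.trans h2
  have hC0 := abs_nonneg C
  have h2 : |a i n| ^ 8 ≤ ((1 + |C|) * (n : ℝ) ^ (1 / 4 : ℝ)) ^ 8 := by
    have e1 : |a i n| ^ 8 = a i n ^ 8 := by
      rw [← abs_pow, abs_of_nonneg (by positivity)]
    have e2 : ((n : ℝ) ^ (1 / 4 : ℝ)) ^ 8 = (n : ℝ) ^ 2 := by
      rw [← Real.rpow_natCast ((n : ℝ) ^ (1 / 4 : ℝ)) 8, ← Real.rpow_mul hn0.le, ← Real.rpow_natCast (n : ℝ) 2]
      norm_num
    rw [e1, mul_pow, e2]
    have e3 : |C| ≤ (1 + |C|) ^ 8 := by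
      have : (1 + |C|) ^ 1 ≤ (1 + |C|) ^ 8 := pow_le_pow_right₀ (by linarith) (by norm_num)
      rw [pow_one] at this
      linarith
    calc a i n ^ 8 ≤ C * ((n : ℝ) * 1) * n := h1
      _ ≤ |C| * (n : ℝ) ^ 2 := by
          have := le_abs_self C
          nlinarith [mul_le_mul_of_nonneg_right this (sq_nonneg (n : ℝ))]
      _ ≤ (1 + |C|) ^ 8 * (n : ℝ) ^ 2 := mul_le_mul_of_nonneg_right e3 (by positivity)
  exact le_of_pow_le_pow_left₀ (by norm_num) (by positivity) h2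

theorem adm_nonneg {V V' : ℝ → ℝ} {C₀ c₀ : ℝ}
    (h : ∀ u : ℝ, 0 < u → HasDerivAt V (V' u) u ∧ |V u| ≤ C₀ * Real.exp (-(c₀ * u)) ∧
      |V' u| ≤ C₀ * Real.exp (-(c₀ * u)) / u) : 0 ≤ C₀ := by
  obtain ⟨-, h2, -⟩ := h 1 one_pos
  by_contra hcon
  push Not at hcon
  have h3 : C₀ * Real.exp (-(c₀ * 1)) < 0 := mul_neg_of_neg_of_pos hcon (Real.exp_pos _)
  have h4 := abs_nonneg (V 1)
  linarith

theorem uf_cont (b : Bool) (f : ℕ → ℝ) (hf : ∀ n, |f n| ≤ 1) (a : ℕ → ℝ) (V : ℝ → ℝ) {A C₀ c₀ y : ℝ}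
    (hA : 0 ≤ A) (hC₀ : 0 ≤ C₀) (hc₀ : 0 < c₀)
    (ha : ∀ n, 1 ≤ n → |a n| ≤ A * (n : ℝ) ^ (1 / 4 : ℝ))
    (hV : ∀ u, 0 < u → |V u| ≤ C₀ * Real.exp (-(c₀ * u))) (hy : 0 < y) :
    Continuous fun x => uf b f a V x y := by
  unfold uf
  refine continuous_const.mul ?_
  have hr0 : 0 ≤ Real.exp (-(c₀ * y)) := (Real.exp_pos _).le
  have hr1 : Real.exp (-(c₀ * y)) < 1 := by
    rw [Real.exp_lt_one_iff]
    have : 0 < c₀ * y := by positivity
    linarith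
  have hsum : Summable fun n : ℕ => A * C₀ * (((n + 1 : ℕ) : ℝ) * Real.exp (-(c₀ * y)) ^ (n + 1)) := by
    refine Summable.mul_left _ ?_
    have h1 := summable_pow_mul_geometric_of_norm_lt_one (R := ℝ) 1 (r := Real.exp (-(c₀ * y))) (by
      rw [Real.norm_eq_abs, abs_of_nonneg hr0]
      exact hr1)
    simp only [pow_one] at h1
    exact (summable_nat_add_iff 1).mpr h1
  refine continuous_tsum (u := fun n : ℕ => A * C₀ * (((n + 1 : ℕ) : ℝ) * Real.exp (-(c₀ * y)) ^ (n + 1)))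
    ?_ hsum ?_
  · intro n
    refine continuous_const.mul ?_
    cases b
    · simp only [Bool.false_eq_true, if_false]
      fun_prop
    · simp only [if_true]
      fun_prop
  · intro n x
    rw [Real.norm_eq_abs, abs_mul, abs_mul, abs_mul]
    have e1 : |(if b then Real.cos (2 * Real.pi * (n + 1) * x) else Real.sin (2 * Real.pi * (n + 1) * x))| ≤ 1 := by
      split_ifs
      · exact Real.abs_cos_le_one _
      · exact Real.abs_sin_le_one _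
    have hn1 : (1 : ℝ) ≤ ((n + 1 : ℕ) : ℝ) := by exact_mod_cast Nat.succ_le_succ (Nat.zero_le n)
    have e2 : |a (n + 1)| ≤ A * ((n + 1 : ℕ) : ℝ) := by
      refine (ha (n + 1) (by omega)).trans (mul_le_mul_of_nonneg_left ?_ hA)
      calc ((n + 1 : ℕ) : ℝ) ^ (1 / 4 : ℝ) ≤ ((n + 1 : ℕ) : ℝ) ^ (1 : ℝ) :=
            Real.rpow_le_rpow_of_exponent_le hn1 (by norm_num)
        _ = _ := Real.rpow_one _
    have e3 : |V ((n + 1) * y)| ≤ C₀ * Real.exp (-(c₀ * y)) ^ (n + 1) := by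
      refine (hV _ (by positivity)).trans (le_of_eq ?_)
      rw [← Real.exp_nat_mul]
      congr 2
      push_cast
      ring
    calc |a (n + 1)| * |f (n + 1)| * |V ((n + 1) * y)| *
          |(if b then Real.cos (2 * Real.pi * (n + 1) * x) else Real.sin (2 * Real.pi * (n + 1) * x))|
        ≤ (A * ((n + 1 : ℕ) : ℝ)) * 1 * (C₀ * Real.exp (-(c₀ * y)) ^ (n + 1)) * 1 := by
          refine mul_le_mul (mul_le_mul (mul_le_mul e2 (hf _) (abs_nonneg _) (by positivity)) e3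
            (abs_nonneg _) (by positivity)) e1 (abs_nonneg _) (by positivity)
      _ = _ := by ring

theorem ut_neg (b : Bool) (a : ℕ → ℝ) (V : ℝ → ℝ) (M y : ℝ) (m : ℤ) :
    ut b a V M y (-m) = (starRingEnd ℂ) (ut b a V M y m) := by
  unfold ut
  rw [Int.natAbs_neg, Int.sign_neg]
  have h1 : (-m ≠ 0 ∧ ((m.natAbs : ℕ) : ℝ) ≤ M) ↔ (m ≠ 0 ∧ ((m.natAbs : ℕ) : ℝ) ≤ M) := by
    rw [neg_ne_zero]
  by_cases h : m ≠ 0 ∧ ((m.natAbs : ℕ) : ℝ) ≤ M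
  · rw [if_pos (h1.mpr h), if_pos h, map_mul, Complex.conj_ofReal]
    congr 1
    cases b
    · simp only [Bool.false_eq_true, if_false, map_mul, map_neg, Complex.conj_I]
      rw [show (starRingEnd ℂ) ((m.sign : ℤ) : ℂ) = ((m.sign : ℤ) : ℂ) from Complex.conj_ofReal (m.sign : ℝ) |>.symm ▸ (by
        simp)]
      push_cast
      ring
    · simp
  · rw [if_neg (fun h' => h (h1.mp h')), if_neg h, map_zero]

theorem ut_norm {b : Bool} {a : ℕ → ℝ} {V : ℝ → ℝ} {M y A C₀ c₀ : ℝ} (hA : 0 ≤ A) (hC₀ : 0 ≤ C₀) (hc₀ : 0 < c₀)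
    (ha : ∀ n, 1 ≤ n → |a n| ≤ A * (n : ℝ) ^ (1 / 4 : ℝ))
    (hV : ∀ u, 0 < u → |V u| ≤ C₀ * Real.exp (-(c₀ * u))) (hy : 0 < y) (m : ℤ) :
    ‖ut b a V M y m‖ ≤ A * C₀ * (1 + 1 / c₀) * y ^ (1 / 4 : ℝ) := by
  unfold ut
  split_ifs with h hb
  · rw [mul_one, Complex.norm_real, Real.norm_eq_abs]
    exact ut_aux hA hC₀ hc₀ ha hV hy h.1
  · rw [norm_mul, Complex.norm_real, Real.norm_eq_abs]
    have h1 : ‖-Complex.I * ((m.sign : ℤ) : ℂ)‖ ≤ 1 := by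
      rw [norm_mul, norm_neg, Complex.norm_I, one_mul]
      rcases lt_trichotomy m 0 with hm | hm | hm
      · rw [Int.sign_eq_neg_one_of_neg hm]
        simp
      · rw [hm]
        simp
      · rw [Int.sign_eq_one_of_pos hm]
        simp
    exact (mul_le_mul (ut_aux hA hC₀ hc₀ ha hV hy h.1) h1 (norm_nonneg _) (by positivity)).trans
      (le_of_eq (mul_one _))
  · rw [norm_zero]
    positivity
where
  ut_aux {a : ℕ → ℝ} {V : ℝ → ℝ} {y A C₀ c₀ : ℝ} (hA : 0 ≤ A) (hC₀ : 0 ≤ C₀) (hc₀ : 0 < c₀)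
    (ha : ∀ n, 1 ≤ n → |a n| ≤ A * (n : ℝ) ^ (1 / 4 : ℝ))
    (hV : ∀ u, 0 < u → |V u| ≤ C₀ * Real.exp (-(c₀ * u))) (hy : 0 < y) {m : ℤ} (hm : m ≠ 0) :
    |√y * a m.natAbs * V (m.natAbs * y) / 2| ≤ A * C₀ * (1 + 1 / c₀) * y ^ (1 / 4 : ℝ) := by
    have hn : 1 ≤ m.natAbs := Int.natAbs_pos.mpr hm
    set n := m.natAbs
    have hn1 : (1 : ℝ) ≤ n := by exact_mod_cast hn
    have hn0 : (0 : ℝ) < n := by linarith
    have e1 := ha n hn
    have e2 := hV (n * y) (by positivity)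
    have e3 : (n : ℝ) ^ (1 / 4 : ℝ) * Real.exp (-(c₀ * (n * y))) ≤ (1 + 1 / c₀) * y ^ (-(1 / 4) : ℝ) := by
      have f1 : (n : ℝ) ^ (1 / 4 : ℝ) = (n * y) ^ (1 / 4 : ℝ) * y ^ (-(1 / 4) : ℝ) := by
        rw [Real.mul_rpow hn0.le hy.le, mul_assoc, ← Real.rpow_add hy]
        norm_num
      have f2 : (n * y) ^ (1 / 4 : ℝ) ≤ 1 + n * y := by
        have hx : 0 < n * y := by positivity
        rcases le_or_gt (n * y) 1 with g | g
        · have := Real.rpow_le_one hx.le g (show (0 : ℝ) ≤ 1 / 4 by norm_num)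
          linarith
        · have : (n * y) ^ (1 / 4 : ℝ) ≤ (n * y) ^ (1 : ℝ) :=
            Real.rpow_le_rpow_of_exponent_le g.le (by norm_num)
          rw [Real.rpow_one] at this
          linarith
      have f3 : (1 + n * y) * Real.exp (-(c₀ * (n * y))) ≤ 1 + 1 / c₀ := by
        have g1 := Real.add_one_le_exp (c₀ * (n * y))
        have g2 : Real.exp (-(c₀ * (n * y))) ≤ 1 := by
          rw [Real.exp_le_one_iff]
          have : 0 ≤ c₀ * (n * y) := by positivity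
          linarith
        have g3 : n * y * Real.exp (-(c₀ * (n * y))) ≤ 1 / c₀ := by
          rw [Real.exp_neg, ← div_eq_mul_inv, div_le_div_iff₀ (Real.exp_pos _) hc₀]
          nlinarith
        rw [add_mul, one_mul]
        exact add_le_add g2 g3
      rw [f1]
      calc (n * y) ^ (1 / 4 : ℝ) * y ^ (-(1 / 4) : ℝ) * Real.exp (-(c₀ * (n * y)))
          = ((n * y) ^ (1 / 4 : ℝ) * Real.exp (-(c₀ * (n * y)))) * y ^ (-(1 / 4) : ℝ) := by ring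
        _ ≤ ((1 + n * y) * Real.exp (-(c₀ * (n * y)))) * y ^ (-(1 / 4) : ℝ) := by
            refine mul_le_mul_of_nonneg_right ?_ (by positivity)
            exact mul_le_mul_of_nonneg_right f2 (Real.exp_pos _).le
        _ ≤ (1 + 1 / c₀) * y ^ (-(1 / 4) : ℝ) := mul_le_mul_of_nonneg_right f3 (by positivity)
    have e4 : √y * y ^ (-(1 / 4) : ℝ) = y ^ (1 / 4 : ℝ) := by
      rw [Real.sqrt_eq_rpow, ← Real.rpow_add hy]
      norm_num
    rw [abs_div, abs_mul, abs_mul, abs_of_nonneg (Real.sqrt_nonneg _), abs_of_pos (show (0 : ℝ) < 2 by norm_num)]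
    calc √y * |a n| * |V (n * y)| / 2 ≤ √y * (A * (n : ℝ) ^ (1 / 4 : ℝ)) * (C₀ * Real.exp (-(c₀ * (n * y)))) / 2 := by
          gcongr
      _ = A * C₀ / 2 * (√y * ((n : ℝ) ^ (1 / 4 : ℝ) * Real.exp (-(c₀ * (n * y))))) := by ring
      _ ≤ A * C₀ / 2 * (√y * ((1 + 1 / c₀) * y ^ (-(1 / 4) : ℝ))) := by
          refine mul_le_mul_of_nonneg_left ?_ (by positivity)
          exact mul_le_mul_of_nonneg_left e3 (Real.sqrt_nonneg _)
      _ = A * C₀ * (1 + 1 / c₀) * (√y * y ^ (-(1 / 4) : ℝ)) / 2 := by ring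
      _ = A * C₀ * (1 + 1 / c₀) * y ^ (1 / 4 : ℝ) / 2 := by rw [e4]
      _ ≤ A * C₀ * (1 + 1 / c₀) * y ^ (1 / 4 : ℝ) := by
          have : 0 ≤ A * C₀ * (1 + 1 / c₀) * y ^ (1 / 4 : ℝ) := by positivity
          linarith

theorem sqrt_diff' (V W : ℝ) (hV : 0 ≤ V) : |√V - √W| ≤ √|V - W| := by
  rcases le_or_gt 0 W with hW | hW
  · exact sqrt_diff V W hV hW
  · rw [Real.sqrt_eq_zero_of_nonpos hW.le, sub_zero, abs_of_nonneg (Real.sqrt_nonneg _)]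
    apply Real.sqrt_le_sqrt
    rw [abs_of_nonneg (by linarith)]
    linarith

/-- the covariances are bounded -/
theorem cv_bd {V V' W W' : ℝ → ℝ} {C₁ c₁ C₂ c₂ h₀ h₁ L κ : ℝ} (hc₁ : 0 < c₁) (hc₂ : 0 < c₂)
    (hC₁ : 0 ≤ C₁) (hC₂ : 0 ≤ C₂)
    (hV : ∀ u, 0 < u → |V u| ≤ C₁ * Real.exp (-(c₁ * u)) ∧ |V' u| ≤ C₁ * Real.exp (-(c₁ * u)) / u)
    (hW : ∀ u, 0 < u → |W u| ≤ C₂ * Real.exp (-(c₂ * u)) ∧ |W' u| ≤ C₂ * Real.exp (-(c₂ * u)) / u)
    (h0 : 0 < h₀) (hL : 0 ≤ L) (b b' : Bool) {h h' τ : ℝ} (ha : h₀ ≤ h) (hb : h ≤ h₁) (ha' : h₀ ≤ h')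
    (hb' : h' ≤ h₁) (hτ : |τ| ≤ 2 * L) :
    |cv κ V W b b' h h' τ| ≤ |κ| / 2 * ((h₁ * (C₁ * C₂) * (2 + 4 * Real.pi * L)) / ((c₁ + c₂) * h₀)) := by
  have h1p : 0 < h₁ := (h0.trans_le ha).trans_le hb
  have hc : 0 < (c₁ + c₂) * h₀ := by positivity
  have hcv : cv κ V W b b' h h' τ = κ / 2 * ∫ t in Set.Ioi (0 : ℝ), GG V W b b' h h' τ t := by
    unfold cv GG
    rw [integral_const_mul]
    ring
  rw [hcv, abs_mul, abs_div, abs_of_pos (show (0 : ℝ) < 2 by norm_num)]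
  refine mul_le_mul_of_nonneg_left ?_ (by positivity)
  have h1 : |∫ t in Set.Ioi (0 : ℝ), GG V W b b' h h' τ t| ≤
      ∫ t in Set.Ioi (0 : ℝ), (h₁ * (C₁ * C₂) * (2 + 4 * Real.pi * L)) * Real.exp (-((c₁ + c₂) * h₀) * t) := by
    rw [← Real.norm_eq_abs]
    refine norm_integral_le_of_norm_le ((integrableOn_exp_mul_Ioi (by linarith) _).const_mul _) ?_
    refine (ae_restrict_iff' measurableSet_Ioi).mpr (Filter.Eventually.of_forall ?_)
    intro t ht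
    rw [Real.norm_eq_abs, neg_mul]
    exact (GG_bounds hc₁ hc₂ hC₁ hC₂ hV hW h0 hL b b' ha hb ha' hb' hτ ht).1
  refine h1.trans (le_of_eq ?_)
  rw [integral_const_mul, integral_exp_mul_Ioi (by linarith)]
  rw [mul_zero, Real.exp_zero, neg_div_neg_eq, mul_one_div]

end Pool.Agent.Q38.L2Y
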