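import Pool.Agent.Q255.L2.StmY
import Pool.Agent.Q261.L2.KintA

/-!
# Job 31163 (project L2Y of helper255): Macdonald's product formula
-/

set_option autoImplicit false

namespace Pool.Agent.Q38.L2Y

open Filter Topology MeasureTheory Set
open Pool.Agent.Q255.L2 (KB)
open Pool.Agent.Q261.L2 (int_exp ex ex_norm ex_add ex_cont full)

/-- the substitution `w = c exp v` -/
theorem subst_exp {c : ℝ} (hc : 0 < c) (g : ℝ → ℝ) :
    (IntegrableOn (fun w => g w / w) (Ioi 0) ↔ Integrable fun v => g (c * Real.exp v)) ∧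
    ∫ w in Ioi (0 : ℝ), g w / w = ∫ v, g (c * Real.exp v) := by
  have hd : ∀ x ∈ (univ : Set ℝ), HasDerivWithinAt (fun v => c * Real.exp v) (c * Real.exp x) univ x := fun x _ =>
    ((Real.hasDerivAt_exp x).const_mul c).hasDerivWithinAt
  have hinj : InjOn (fun v => c * Real.exp v) (univ : Set ℝ) := by
    intro x _ y _ h
    have h1 : Real.exp x = Real.exp y := mul_left_cancel₀ hc.ne' h
    exact Real.exp_injective h1
  have himg : (fun v => c * Real.exp v) '' univ = Ioi 0 := by
    ext y
    constructor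
    · rintro ⟨x, -, rfl⟩
      exact mul_pos hc (Real.exp_pos x)
    · intro hy
      have hy' : 0 < y := hy
      refine ⟨Real.log (y / c), mem_univ _, ?_⟩
      dsimp only
      rw [Real.exp_log (div_pos hy' hc)]
      field_simp
  have h1 := integral_image_eq_integral_abs_deriv_smul MeasurableSet.univ hd hinj (fun w => g w / w)
  have h2 := integrableOn_image_iff_integrableOn_abs_deriv_smul MeasurableSet.univ hd hinj (fun w => g w / w)
  have h3 : (fun x => |c * Real.exp x| • (g (c * Real.exp x) / (c * Real.exp x))) = fun v => g (c * Real.exp v) := by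
    funext x
    have hp : 0 < c * Real.exp x := mul_pos hc (Real.exp_pos x)
    rw [abs_of_pos hp, smul_eq_mul]
    field_simp
  rw [himg] at h1 h2
  rw [h3] at h1 h2
  rw [setIntegral_univ] at h1
  rw [integrableOn_univ] at h2
  exact ⟨h2, h1⟩

/-- `S(t) = a² + b² + 2ab cosh t` -/
theorem SS_eq (a b t : ℝ) : a ^ 2 + b ^ 2 + 2 * (a * b) * Real.cosh t =
    (a * Real.exp t + b) * (a * Real.exp (-t) + b) := by
  rw [Real.cosh_eq]
  have h : Real.exp t * Real.exp (-t) = 1 := by
    rw [← Real.exp_add, add_neg_cancel, Real.exp_zero]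
  calc a ^ 2 + b ^ 2 + 2 * (a * b) * ((Real.exp t + Real.exp (-t)) / 2)
      = a ^ 2 * 1 + b ^ 2 + a * b * (Real.exp t + Real.exp (-t)) := by ring
    _ = a ^ 2 * (Real.exp t * Real.exp (-t)) + b ^ 2 + a * b * (Real.exp t + Real.exp (-t)) := by rw [h]
    _ = _ := by ring

/-- the integrand -/
noncomputable def ph (a b w t : ℝ) : ℝ :=
  Real.exp (-(w + (a ^ 2 + b ^ 2 + 2 * (a * b) * Real.cosh t) / w) / 2) / w

theorem ph_nonneg (a b : ℝ) {w : ℝ} (hw : 0 < w) (t : ℝ) : 0 ≤ ph a b w t := by
  unfold ph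
  positivity

/-- the two exponentials -/
noncomputable def HH (a b v t : ℝ) : ℝ := Real.exp (-(b * Real.cosh v)) * Real.exp (-(a * Real.cosh (t - v)))

theorem ph_subst {a b : ℝ} (ha : 0 < a) (hb : 0 < b) (t v : ℝ) :
    Real.exp (-((a * Real.exp (-t) + b) * Real.exp v +
      (a ^ 2 + b ^ 2 + 2 * (a * b) * Real.cosh t) / ((a * Real.exp (-t) + b) * Real.exp v)) / 2) = HH a b v t := by
  unfold HH
  rw [SS_eq, ← Real.exp_add]
  congr 1
  have h1 : 0 < a * Real.exp (-t) + b := by positivity
  have h2 : (a * Real.exp t + b) * (a * Real.exp (-t) + b) / ((a * Real.exp (-t) + b) * Real.exp v) =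
      (a * Real.exp t + b) * Real.exp (-v) := by
    rw [Real.exp_neg v]
    field_simp
  rw [h2, Real.cosh_eq, Real.cosh_eq, neg_sub, sub_eq_add_neg, sub_eq_add_neg, Real.exp_add, Real.exp_add]
  ring

theorem ph_line {a b : ℝ} (ha : 0 < a) (hb : 0 < b) (t : ℝ) :
    (IntegrableOn (fun w => ph a b w t) (Ioi 0) ↔ Integrable fun v => HH a b v t) ∧
    ∫ w in Ioi (0 : ℝ), ph a b w t = ∫ v, HH a b v t := by
  have h1 : 0 < a * Real.exp (-t) + b := by positivity
  have h2 := subst_exp h1 fun w => Real.exp (-(w + (a ^ 2 + b ^ 2 + 2 * (a * b) * Real.cosh t) / w) / 2)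
  simp only [ph_subst ha hb] at h2
  exact h2

/-- integrability of the product in the shifted variables -/
theorem HH_int {a b : ℝ} (ha : 0 < a) (hb : 0 < b) :
    Integrable (fun z : ℝ × ℝ => HH a b z.1 z.2) (volume.prod volume) := by
  have h1 := (int_exp hb).mul_prod (int_exp ha)
  have h2 := (measurePreserving_prod_sub (volume : Measure ℝ) (volume : Measure ℝ)).integrable_comp_of_integrable h1
  exact h2

theorem HH_line {a b : ℝ} (ha : 0 < a) (hb : 0 < b) (t : ℝ) : Integrable fun v => HH a b v t := by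
  refine (int_exp hb).mono' ?_ (Eventually.of_forall fun v => ?_)
  · refine Continuous.aestronglyMeasurable ?_
    unfold HH
    have := Real.continuous_cosh
    fun_prop
  · unfold HH
    rw [norm_mul, Real.norm_of_nonneg (Real.exp_pos _).le, Real.norm_of_nonneg (Real.exp_pos _).le]
    refine mul_le_of_le_one_right (Real.exp_pos _).le ?_
    rw [Real.exp_le_one_iff]
    have := Real.cosh_pos (t - v)
    have : 0 < a * Real.cosh (t - v) := by positivity
    linarith

theorem HH_cont (a b : ℝ) : Continuous fun z : ℝ × ℝ => HH a b z.1 z.2 := by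
  unfold HH
  have := Real.continuous_cosh
  fun_prop

/-- the complex integrand -/
noncomputable def PH (T a b : ℝ) (z : ℝ × ℝ) : ℂ := ((ph a b z.1 z.2 : ℝ) : ℂ) * ex T z.2

theorem PH_meas (T a b : ℝ) : Measurable (PH T a b) := by
  unfold PH ph
  refine Measurable.mul (Complex.measurable_ofReal.comp ?_) ((ex_cont T).measurable.comp measurable_snd)
  have := Real.measurable_cosh
  fun_prop

theorem PH_int {a b : ℝ} (ha : 0 < a) (hb : 0 < b) (T : ℝ) :
    Integrable (PH T a b) ((volume.restrict (Ioi 0)).prod volume) := by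
  refine (integrable_prod_iff' (PH_meas T a b).aestronglyMeasurable).2 ⟨Eventually.of_forall fun t => ?_, ?_⟩
  · have h1 : IntegrableOn (fun w => ph a b w t) (Ioi 0) := (ph_line ha hb t).1.2 (HH_line ha hb t)
    exact (h1.ofReal (𝕜 := ℂ)).mul_const (ex T t)
  · have h2 : Integrable fun t => ∫ v, HH a b v t := (HH_int ha hb).integral_prod_right
    refine h2.congr (Eventually.of_forall fun t => ?_)
    dsimp only
    rw [← (ph_line ha hb t).2]
    refine setIntegral_congr_fun measurableSet_Ioi fun w hw => ?_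
    change ph a b w t = ‖PH T a b (w, t)‖
    unfold PH
    rw [norm_mul, ex_norm, mul_one, Complex.norm_real, Real.norm_of_nonneg (ph_nonneg a b hw t)]

/-- the integral over `t` for fixed `w` -/
theorem inner_t {a b : ℝ} (ha : 0 < a) (hb : 0 < b) (T : ℝ) {w : ℝ} (hw : 0 < w) :
    ∫ t, PH T a b (w, t) =
      ((2 * (Real.exp (-(w + (a ^ 2 + b ^ 2) / w) / 2) * KB T (a * b / w) / w) : ℝ) : ℂ) := by
  have h1 : (fun t : ℝ => PH T a b (w, t)) = fun t : ℝ =>
      ((Real.exp (-(w + (a ^ 2 + b ^ 2) / w) / 2) / w : ℝ) : ℂ) *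
        (((Real.exp (-(a * b / w * Real.cosh t)) : ℝ) : ℂ) * ex T t) := by
    funext t
    unfold PH ph
    dsimp only
    rw [← mul_assoc (_ : ℂ) _ (ex T t)]
    congr 1
    rw [← Complex.ofReal_mul]
    congr 1
    rw [div_mul_eq_mul_div, ← Real.exp_add]
    congr 2
    field_simp
    ring
  rw [h1, integral_const_mul, full (show 0 < a * b / w by positivity)]
  unfold KB
  push_cast
  ring

/-- the integral over `w` for fixed `t` -/
theorem inner_w {a b : ℝ} (ha : 0 < a) (hb : 0 < b) (T t : ℝ) :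
    ∫ w in Ioi (0 : ℝ), PH T a b (w, t) = ∫ v, ((HH a b v t : ℝ) : ℂ) * ex T t := by
  unfold PH
  dsimp only
  rw [integral_mul_const, integral_mul_const, integral_complex_ofReal, integral_complex_ofReal, (ph_line ha hb t).2]

/-- the product of two Bessel functions as a double integral -/
theorem prod_KB {a b : ℝ} (ha : 0 < a) (hb : 0 < b) (T : ℝ) :
    ∫ t, ∫ v, ((HH a b v t : ℝ) : ℂ) * ex T t = ((4 * (KB T a * KB T b) : ℝ) : ℂ) := by
  have h1 : Integrable (fun z : ℝ × ℝ => ((HH a b z.1 z.2 : ℝ) : ℂ) * ex T z.2) (volume.prod volume) := by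
    refine (HH_int ha hb).mono' ?_ (Eventually.of_forall fun z => ?_)
    · refine Continuous.aestronglyMeasurable ?_
      exact (Complex.continuous_ofReal.comp (HH_cont a b)).mul ((ex_cont T).comp continuous_snd)
    · rw [norm_mul, ex_norm, mul_one, Complex.norm_real, Real.norm_of_nonneg]
      unfold HH
      positivity
  have h2 := integral_integral_swap (f := fun v t => ((HH a b v t : ℝ) : ℂ) * ex T t) h1
  rw [← h2]
  have h3 : ∀ v : ℝ, ∫ t, ((HH a b v t : ℝ) : ℂ) * ex T t =
      (((Real.exp (-(b * Real.cosh v)) : ℝ) : ℂ) * ex T v) * ((2 * KB T a : ℝ) : ℂ) := by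
    intro v
    have h4 : ((2 * KB T a : ℝ) : ℂ) = ∫ u : ℝ, ((Real.exp (-(a * Real.cosh u)) : ℝ) : ℂ) * ex T u := by
      rw [full ha]
      rfl
    rw [h4, ← integral_const_mul, ← integral_sub_right_eq_self
      (fun u => (((Real.exp (-(b * Real.cosh v)) : ℝ) : ℂ) * ex T v) *
        (((Real.exp (-(a * Real.cosh u)) : ℝ) : ℂ) * ex T u)) v]
    refine integral_congr_ae (Eventually.of_forall fun t => ?_)
    dsimp only
    unfold HH
    have h5 : ex T t = ex T v * ex T (t - v) := by
      rw [← ex_add]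
      congr 1
      ring
    rw [h5]
    push_cast
    ring
  rw [integral_congr_ae (Eventually.of_forall h3), integral_mul_const, full hb]
  unfold KB
  push_cast
  ring

/-- **Job 31163.** -/
theorem yi1 : Pool.Agent.Q255.L2Y.S_YI1 := by
  intro T a b ha hb
  have h1 : ∀ w ∈ Ioi (0 : ℝ), ∫ t, PH T a b (w, t) =
      ((2 * (Real.exp (-(w + (a ^ 2 + b ^ 2) / w) / 2) * KB T (a * b / w) / w) : ℝ) : ℂ) := fun w hw =>
    inner_t ha hb T hw
  have h3 := (PH_int ha hb T).integral_prod_left
  have h4 : IntegrableOn (fun w : ℝ =>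
      ((2 * (Real.exp (-(w + (a ^ 2 + b ^ 2) / w) / 2) * KB T (a * b / w) / w) : ℝ) : ℂ)) (Ioi 0) :=
    IntegrableOn.congr_fun h3 h1 measurableSet_Ioi
  have h5 : IntegrableOn (fun w : ℝ =>
      2 * (Real.exp (-(w + (a ^ 2 + b ^ 2) / w) / 2) * KB T (a * b / w) / w)) (Ioi 0) := by
    have h6 := h4.re
    exact h6
  have h7 : IntegrableOn (fun w : ℝ =>
      Real.exp (-(w + (a ^ 2 + b ^ 2) / w) / 2) * KB T (a * b / w) / w) (Ioi 0) := by
    have h8 := h5.const_mul (1 / 2)
    refine IntegrableOn.congr_fun h8 (fun u _ => ?_) measurableSet_Ioi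
    ring
  refine ⟨h7, ?_⟩
  have h9 := integral_integral_swap (f := fun w t => PH T a b (w, t)) (PH_int ha hb T)
  rw [setIntegral_congr_fun measurableSet_Ioi h1, integral_congr_ae (Eventually.of_forall (inner_w ha hb T)),
    prod_KB ha hb, integral_complex_ofReal, integral_const_mul] at h9
  have h10 : 2 * ∫ w in Ioi (0 : ℝ), Real.exp (-(w + (a ^ 2 + b ^ 2) / w) / 2) * KB T (a * b / w) / w =
      4 * (KB T a * KB T b) := by exact_mod_cast h9
  linarith

end Pool.Agent.Q38.L2Y
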