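import Pool.Agent.Q255.L2.StmY
import Pool.Agent.Q261.L2.KintA

/-!
# Job 31164 (project L2Y of helper255): the covariance kernel depends only on the hyperbolic distance
-/

set_option autoImplicit false

namespace Pool.Agent.Q38.L2Y

open Filter Topology MeasureTheory Set
open Pool.Agent.Q255.L2 (KB KB1 S_KODE S_KBB)

/-- the substitution `t = s √x` -/
theorem subst_sqrt {s : ℝ} (hs : 0 < s) (f : ℝ → ℝ) :
    (IntegrableOn f (Ioi 0) ↔ IntegrableOn (fun x => s / (2 * √x) * f (s * √x)) (Ioi 0)) ∧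
    ∫ t in Ioi (0 : ℝ), f t = ∫ x in Ioi (0 : ℝ), s / (2 * √x) * f (s * √x) := by
  have hd : ∀ x ∈ Ioi (0 : ℝ), HasDerivWithinAt (fun x => s * √x) (s / (2 * √x)) (Ioi 0) x := by
    intro x hx
    have hx' : 0 < x := hx
    have h1 := ((Real.hasDerivAt_sqrt hx'.ne').const_mul s).hasDerivWithinAt (s := Ioi 0)
    refine h1.congr_deriv ?_
    rw [mul_one_div]
  have hinj : InjOn (fun x => s * √x) (Ioi (0 : ℝ)) := by
    intro x hx y hy h
    have h1 : √x = √y := mul_left_cancel₀ hs.ne' h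
    exact (Real.sqrt_inj (le_of_lt hx) (le_of_lt hy)).1 h1
  have himg : (fun x => s * √x) '' Ioi (0 : ℝ) = Ioi 0 := by
    ext y
    constructor
    · rintro ⟨x, hx, rfl⟩
      exact mul_pos hs (Real.sqrt_pos.2 hx)
    · intro hy
      have hy' : 0 < y := hy
      refine ⟨(y / s) ^ 2, by
        have : 0 < y / s := div_pos hy' hs
        exact pow_pos this 2, ?_⟩
      dsimp only
      rw [Real.sqrt_sq (div_pos hy' hs).le]
      field_simp
  have h1 := integral_image_eq_integral_abs_deriv_smul measurableSet_Ioi hd hinj f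
  have h2 := integrableOn_image_iff_integrableOn_abs_deriv_smul measurableSet_Ioi hd hinj f
  have h3 : ∀ x ∈ Ioi (0 : ℝ), |s / (2 * √x)| • f (s * √x) = s / (2 * √x) * f (s * √x) := by
    intro x hx
    have hx' : 0 < √x := Real.sqrt_pos.2 hx
    rw [abs_of_pos (by positivity), smul_eq_mul]
  rw [himg] at h1 h2
  refine ⟨?_, ?_⟩
  · rw [h2]
    exact ⟨fun h => h.congr_fun h3 measurableSet_Ioi, fun h =>
      h.congr_fun (fun x hx => (h3 x hx).symm) measurableSet_Ioi⟩
  · rw [h1]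
    exact setIntegral_congr_fun measurableSet_Ioi h3

/-- `exp (-c x)/√x` is integrable -/
theorem int_g {c : ℝ} (hc : 0 < c) : IntegrableOn (fun x => Real.exp (-(c * x)) / √x) (Ioi 0) := by
  have h1 : IntegrableOn (fun t : ℝ => Real.exp (-c * t ^ 2)) (Ioi 0) :=
    (integrable_exp_neg_mul_sq hc).integrableOn
  have h2 := ((subst_sqrt one_pos _).1.1 h1).const_mul 2
  refine IntegrableOn.congr_fun h2 (fun x hx => ?_) measurableSet_Ioi
  have hx0 : 0 < x := hx
  have hx' : 0 < √x := Real.sqrt_pos.2 hx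
  rw [one_mul, Real.sq_sqrt hx0.le, neg_mul]
  field_simp

/-- the Fourier transform of the Gaussian function -/
theorem gauss_line (b : ℝ) : ∫ t : ℝ, Real.exp (-(1 / 2) * t ^ 2) * Real.cos (b * t) =
    √(2 * Real.pi) * Real.exp (-(b ^ 2 / 2)) := by
  have h := fourierIntegral_gaussian (b := (1 / 2 : ℂ)) (by norm_num) (b : ℂ)
  have hint : Integrable fun x : ℝ => Complex.exp (Complex.I * b * x) * Complex.exp (-(1 / 2 : ℂ) * x ^ 2) := by
    have h1 := integrable_cexp_quadratic (b := (1 / 2 : ℂ)) (by norm_num) (Complex.I * b) 0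
    refine h1.congr (Eventually.of_forall fun x => ?_)
    dsimp only
    rw [← Complex.exp_add]
    congr 1
    ring
  have h2 := integral_re hint
  rw [h] at h2
  have h3 : ∀ x : ℝ, RCLike.re (Complex.exp (Complex.I * b * x) * Complex.exp (-(1 / 2 : ℂ) * x ^ 2)) =
      Real.exp (-(1 / 2) * x ^ 2) * Real.cos (b * x) := by
    intro x
    have e1 : Complex.exp (-(1 / 2 : ℂ) * x ^ 2) = ((Real.exp (-(1 / 2) * x ^ 2) : ℝ) : ℂ) := by
      rw [Complex.ofReal_exp]
      congr 1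
      push_cast
      ring
    have e2 : Complex.I * b * x = ((b * x : ℝ) : ℂ) * Complex.I := by
      push_cast
      ring
    rw [e1, e2]
    change (Complex.exp (((b * x : ℝ) : ℂ) * Complex.I) * ((Real.exp (-(1 / 2) * x ^ 2) : ℝ) : ℂ)).re = _
    rw [Complex.re_mul_ofReal, Complex.exp_ofReal_mul_I_re]
    ring
  simp only [h3] at h2
  rw [h2]
  have e4 : ((Real.pi : ℂ) / (1 / 2)) ^ (1 / 2 : ℂ) = ((√(2 * Real.pi) : ℝ) : ℂ) := by
    rw [Real.sqrt_eq_rpow, Complex.ofReal_cpow (by positivity)]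
    congr 1
    · push_cast
      ring
    · push_cast
      ring
  have e5 : Complex.exp (-(b : ℂ) ^ 2 / (4 * (1 / 2))) = ((Real.exp (-(b ^ 2 / 2)) : ℝ) : ℂ) := by
    rw [Complex.ofReal_exp]
    congr 1
    push_cast
    ring
  rw [e4, e5, ← Complex.ofReal_mul]
  rfl

/-- the inner integral -/
theorem gauss_half (b : ℝ) : ∫ v in Ioi (0 : ℝ), Real.exp (-(1 / 2 * v)) / √v * Real.cos (b * √v) =
    √(2 * Real.pi) * Real.exp (-(b ^ 2 / 2)) := by
  have h1 : ∫ t : ℝ, Real.exp (-(1 / 2) * t ^ 2) * Real.cos (b * t) =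
      2 * ∫ t in Ioi (0 : ℝ), Real.exp (-(1 / 2) * t ^ 2) * Real.cos (b * t) := by
    rw [← integral_comp_abs (f := fun t => Real.exp (-(1 / 2) * t ^ 2) * Real.cos (b * t))]
    refine integral_congr_ae (Eventually.of_forall fun t => ?_)
    dsimp only
    rw [sq_abs]
    congr 1
    rcases abs_choice t with h | h
    · rw [h]
    · rw [h, mul_neg, Real.cos_neg]
  rw [gauss_line] at h1
  rw [h1, (subst_sqrt one_pos (fun t => Real.exp (-(1 / 2) * t ^ 2) * Real.cos (b * t))).2, ← integral_const_mul]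
  refine setIntegral_congr_fun measurableSet_Ioi fun x hx => ?_
  have hx0 : 0 < x := hx
  have hx' : 0 < √x := Real.sqrt_pos.2 hx
  rw [one_mul, Real.sq_sqrt hx0.le, neg_mul]
  field_simp

/-- `K_{iT}` is bounded and continuous -/
theorem KB_bdd (h3 : S_KBB) (T : ℝ) (hT : 1 ≤ T) : ∃ K : ℝ, 0 ≤ K ∧ ∀ u : ℝ, 0 < u → |KB T u| ≤ K := by
  obtain ⟨C, hC, h⟩ := h3
  refine ⟨√C, Real.sqrt_nonneg C, ?_⟩
  intro u hu
  have h1 := (h T hT).1 u hu
  have h2 : 1 ≤ Real.exp (Real.pi * T) := Real.one_le_exp (by have := Real.pi_pos; positivity)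
  have h4 : C / (1 + |T - u|) ≤ C := div_le_self hC (by have := abs_nonneg (T - u); linarith)
  apply Real.abs_le_sqrt
  nlinarith [sq_nonneg (KB T u)]

theorem KB_cont (h2 : S_KODE) (T : ℝ) : ContinuousOn (KB T) (Ioi 0) := fun u hu =>
  (h2.1 T u hu).1.continuousAt.continuousWithinAt

/-- the integrand of the double integral -/
noncomputable def FI (T h h' τ : ℝ) (z : ℝ × ℝ) : ℝ :=
  Real.exp (-(z.2 + ((2 * Real.pi * (h * z.1)) ^ 2 + (2 * Real.pi * (h' * z.1)) ^ 2) / z.2) / 2) *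
    KB T (2 * Real.pi * (h * z.1) * (2 * Real.pi * (h' * z.1)) / z.2) / z.2 * Real.cos (2 * Real.pi * z.1 * τ)

/-- the function of one variable -/
noncomputable def g2 (T h h' : ℝ) (x : ℝ) : ℝ :=
  Real.exp (-((h ^ 2 + h' ^ 2) / (2 * (h * h')) * x)) * KB T x / √x

/-- the function of the other variable -/
noncomputable def g1 (v : ℝ) : ℝ := Real.exp (-(1 / 2 * v)) / √v

theorem g2_int (h2 : S_KODE) (h3 : S_KBB) {T h h' : ℝ} (hT : 1 ≤ T) (hh : 0 < h) (hh' : 0 < h') :
    IntegrableOn (g2 T h h') (Ioi 0) := by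
  obtain ⟨K, hK0, hK⟩ := KB_bdd h3 T hT
  have h1 := (int_g (show 0 < (h ^ 2 + h' ^ 2) / (2 * (h * h')) by positivity)).const_mul K
  refine Integrable.mono' h1 ?_ ?_
  · refine ContinuousOn.aestronglyMeasurable ?_ measurableSet_Ioi
    unfold g2
    refine ContinuousOn.div ?_ (Real.continuous_sqrt.continuousOn) fun x hx => (Real.sqrt_pos.2 hx).ne'
    refine ContinuousOn.mul ?_ (KB_cont h2 T)
    exact Continuous.continuousOn (by fun_prop)
  · refine (ae_restrict_iff' measurableSet_Ioi).2 (Eventually.of_forall fun x hx => ?_)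
    have hx' : 0 < √x := Real.sqrt_pos.2 hx
    unfold g2
    rw [norm_div, norm_mul, Real.norm_of_nonneg (Real.exp_pos _).le, Real.norm_of_nonneg hx'.le, Real.norm_eq_abs]
    calc Real.exp (-((h ^ 2 + h' ^ 2) / (2 * (h * h')) * x)) * |KB T x| / √x
        ≤ Real.exp (-((h ^ 2 + h' ^ 2) / (2 * (h * h')) * x)) * K / √x := by
          have := hK x hx
          gcongr
      _ = _ := by ring

theorem g1_int : IntegrableOn g1 (Ioi 0) := int_g (by norm_num)

/-- the product integrand -/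
noncomputable def GI (T h h' τ : ℝ) (z : ℝ × ℝ) : ℝ :=
  1 / (4 * Real.pi * √(h * h')) * (g2 T h h' z.1 * g1 z.2 * Real.cos (τ / √(h * h') * (√z.1 * √z.2)))

theorem GI_int (h2 : S_KODE) (h3 : S_KBB) {T h h' : ℝ} (τ : ℝ) (hT : 1 ≤ T) (hh : 0 < h) (hh' : 0 < h') :
    Integrable (GI T h h' τ) ((volume.restrict (Ioi 0)).prod (volume.restrict (Ioi 0))) := by
  have h1 := (g2_int h2 h3 hT hh hh').mul_prod g1_int
  unfold GI
  refine Integrable.const_mul ?_ _
  refine h1.norm.mono' ?_ (Eventually.of_forall fun z => ?_)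
  · refine h1.aestronglyMeasurable.mul (Continuous.aestronglyMeasurable ?_)
    fun_prop
  · rw [norm_mul]
    exact mul_le_of_le_one_right (norm_nonneg _) (by
      rw [Real.norm_eq_abs]
      exact Real.abs_cos_le_one _)

/-- the substitution for fixed `v` -/
theorem F_subst {T h h' : ℝ} (τ : ℝ) (hh : 0 < h) (hh' : 0 < h') {v x : ℝ} (hv : 0 < v) (hx : 0 < x) :
    √v / (2 * Real.pi * √(h * h')) / (2 * √x) * FI T h h' τ (√v / (2 * Real.pi * √(h * h')) * √x, v) =
      GI T h h' τ (x, v) := by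
  have hp := Real.pi_pos
  have hv' : 0 < √v := Real.sqrt_pos.2 hv
  have hx' : 0 < √x := Real.sqrt_pos.2 hx
  have hP : 0 < h * h' := mul_pos hh hh'
  have hP' : 0 < √(h * h') := Real.sqrt_pos.2 hP
  have ev : v = √v ^ 2 := (Real.sq_sqrt hv.le).symm
  have ex : x = √x ^ 2 := (Real.sq_sqrt hx.le).symm
  have eP : h * h' = √(h * h') ^ 2 := (Real.sq_sqrt hP.le).symm
  unfold FI GI g2 g1
  dsimp only
  have e1 : ((2 * Real.pi * (h * (√v / (2 * Real.pi * √(h * h')) * √x))) ^ 2 +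
      (2 * Real.pi * (h' * (√v / (2 * Real.pi * √(h * h')) * √x))) ^ 2) / v = (h ^ 2 + h' ^ 2) / (h * h') * x := by
    have f1 : (2 * Real.pi * (h * (√v / (2 * Real.pi * √(h * h')) * √x))) ^ 2 +
      (2 * Real.pi * (h' * (√v / (2 * Real.pi * √(h * h')) * √x))) ^ 2 =
        (h ^ 2 + h' ^ 2) * (√v ^ 2 * √x ^ 2) / √(h * h') ^ 2 := by
      field_simp
    rw [f1, ← ev, ← ex, ← eP]
    field_simp
  have e2 : 2 * Real.pi * (h * (√v / (2 * Real.pi * √(h * h')) * √x)) *
      (2 * Real.pi * (h' * (√v / (2 * Real.pi * √(h * h')) * √x))) / v = x := by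
    have f1 : 2 * Real.pi * (h * (√v / (2 * Real.pi * √(h * h')) * √x)) *
      (2 * Real.pi * (h' * (√v / (2 * Real.pi * √(h * h')) * √x))) =
        (h * h') * (√v ^ 2 * √x ^ 2) / √(h * h') ^ 2 := by
      field_simp
    rw [f1, ← ev, ← ex, ← eP]
    field_simp
  have e3 : 2 * Real.pi * (√v / (2 * Real.pi * √(h * h')) * √x) * τ = τ / √(h * h') * (√x * √v) := by
    field_simp
  rw [e1, e2, e3]
  have e4 : Real.exp (-(v + (h ^ 2 + h' ^ 2) / (h * h') * x) / 2) =
      Real.exp (-((h ^ 2 + h' ^ 2) / (2 * (h * h')) * x)) * Real.exp (-(1 / 2 * v)) := by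
    rw [← Real.exp_add]
    congr 1
    field_simp
    ring
  rw [e4]
  have e5 : √v / v = 1 / √v := by
    nth_rewrite 2 [ev]
    field_simp
  generalize Real.exp (-((h ^ 2 + h' ^ 2) / (2 * (h * h')) * x)) = A
  generalize Real.exp (-(1 / 2 * v)) = B
  generalize KB T x = K
  generalize Real.cos (τ / √(h * h') * (√x * √v)) = c
  calc √v / (2 * Real.pi * √(h * h')) / (2 * √x) * (A * B * K / v * c)
      = (√v / v) * (A * B * K * c / (4 * Real.pi * √(h * h') * √x)) := by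
        field_simp
        ring
    _ = (1 / √v) * (A * B * K * c / (4 * Real.pi * √(h * h') * √x)) := by rw [e5]
    _ = _ := by
        field_simp

theorem FI_meas (h2 : S_KODE) {T h h' : ℝ} (τ : ℝ) (hh : 0 < h) (hh' : 0 < h') :
    AEStronglyMeasurable (FI T h h' τ) ((volume.restrict (Ioi 0)).prod (volume.restrict (Ioi 0))) := by
  rw [Measure.prod_restrict]
  refine ContinuousOn.aestronglyMeasurable ?_ (measurableSet_Ioi.prod measurableSet_Ioi)
  have hp := Real.pi_pos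
  unfold FI
  have hz : ∀ z ∈ Ioi (0 : ℝ) ×ˢ Ioi (0 : ℝ), z.2 ≠ 0 := fun z hz => ne_of_gt hz.2
  have hc1 : ContinuousOn (fun z : ℝ × ℝ => z.1) (Ioi (0 : ℝ) ×ˢ Ioi (0 : ℝ)) := continuous_fst.continuousOn
  have hc2 : ContinuousOn (fun z : ℝ × ℝ => z.2) (Ioi (0 : ℝ) ×ˢ Ioi (0 : ℝ)) := continuous_snd.continuousOn
  refine ContinuousOn.mul (ContinuousOn.div (ContinuousOn.mul ?_ ?_) hc2 hz) (Continuous.continuousOn (by fun_prop))
  · refine Real.continuous_exp.comp_continuousOn ?_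
    refine ContinuousOn.div_const (ContinuousOn.neg (hc2.add (ContinuousOn.div ?_ hc2 hz))) 2
    exact Continuous.continuousOn (by fun_prop)
  · refine (KB_cont h2 T).comp (ContinuousOn.div (Continuous.continuousOn (by fun_prop)) hc2 hz) ?_
    intro z hz
    have h1 : 0 < z.1 := hz.1
    have h2 : 0 < z.2 := hz.2
    change 0 < 2 * Real.pi * (h * z.1) * (2 * Real.pi * (h' * z.1)) / z.2
    positivity

theorem FI_int (h2 : S_KODE) (h3 : S_KBB) {T h h' : ℝ} (τ : ℝ) (hT : 1 ≤ T) (hh : 0 < h) (hh' : 0 < h') :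
    Integrable (FI T h h' τ) ((volume.restrict (Ioi 0)).prod (volume.restrict (Ioi 0))) := by
  have hG := GI_int h2 h3 τ hT hh hh'
  have hG' := (integrable_prod_iff' hG.aestronglyMeasurable).1 hG
  have hp := Real.pi_pos
  have hP : 0 < √(h * h') := Real.sqrt_pos.2 (mul_pos hh hh')
  have hs : ∀ v : ℝ, 0 < v → 0 < √v / (2 * Real.pi * √(h * h')) := fun v hv => by
    have hv' : 0 < √v := Real.sqrt_pos.2 hv
    positivity
  refine (integrable_prod_iff' (FI_meas h2 τ hh hh')).2 ⟨?_, ?_⟩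
  · filter_upwards [hG'.1, ae_restrict_mem measurableSet_Ioi] with v hv hv0
    have hv0' : 0 < v := hv0
    refine (subst_sqrt (hs v hv0') _).1.2 ?_
    exact IntegrableOn.congr_fun hv (fun x hx => (F_subst τ hh hh' hv0' hx).symm) measurableSet_Ioi
  · refine hG'.2.congr ?_
    filter_upwards [ae_restrict_mem measurableSet_Ioi] with v hv0
    have hv0' : 0 < v := hv0
    rw [(subst_sqrt (hs v hv0') (fun t => ‖FI T h h' τ (t, v)‖)).2]
    refine setIntegral_congr_fun measurableSet_Ioi fun x hx => ?_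
    have hx' : 0 < √x := Real.sqrt_pos.2 hx
    have h1 := hs v hv0'
    change ‖GI T h h' τ (x, v)‖ = √v / (2 * Real.pi * √(h * h')) / (2 * √x) *
      ‖FI T h h' τ (√v / (2 * Real.pi * √(h * h')) * √x, v)‖
    rw [← F_subst τ hh hh' hv0' hx, norm_mul, Real.norm_of_nonneg (by positivity)]

/-- the inner integral over `x` -/
theorem inner_x {T h h' : ℝ} (τ : ℝ) (hh : 0 < h) (hh' : 0 < h') {v : ℝ} (hv : 0 < v) :
    ∫ t in Ioi (0 : ℝ), FI T h h' τ (t, v) = ∫ x in Ioi (0 : ℝ), GI T h h' τ (x, v) := by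
  have hp := Real.pi_pos
  have hP : 0 < √(h * h') := Real.sqrt_pos.2 (mul_pos hh hh')
  have hv' : 0 < √v := Real.sqrt_pos.2 hv
  have hs : 0 < √v / (2 * Real.pi * √(h * h')) := by positivity
  rw [(subst_sqrt hs _).2]
  exact setIntegral_congr_fun measurableSet_Ioi fun x hx => F_subst τ hh hh' hv hx

/-- the inner integral over `v` -/
theorem inner_v {T h h' : ℝ} (τ : ℝ) (hh : 0 < h) (hh' : 0 < h') {x : ℝ} (hx : 0 < x) :
    ∫ v in Ioi (0 : ℝ), GI T h h' τ (x, v) = 1 / (4 * Real.pi * √(h * h')) * √(2 * Real.pi) *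
      (Real.exp (-(x * ((h ^ 2 + h' ^ 2 + τ ^ 2) / (2 * h * h')))) * KB T x / √x) := by
  have hP : 0 < h * h' := mul_pos hh hh'
  have h1 : ∀ v : ℝ, GI T h h' τ (x, v) = (1 / (4 * Real.pi * √(h * h')) * g2 T h h' x) *
      (Real.exp (-(1 / 2 * v)) / √v * Real.cos (τ / √(h * h') * √x * √v)) := by
    intro v
    unfold GI g1
    dsimp only
    rw [show τ / √(h * h') * (√x * √v) = τ / √(h * h') * √x * √v by ring]
    ring
  simp only [h1]
  rw [integral_const_mul, gauss_half]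
  unfold g2
  have h2 : (τ / √(h * h') * √x) ^ 2 = τ ^ 2 / (h * h') * x := by
    rw [mul_pow, div_pow, Real.sq_sqrt hP.le, Real.sq_sqrt hx.le]
  have h3 : Real.exp (-(x * ((h ^ 2 + h' ^ 2 + τ ^ 2) / (2 * h * h')))) =
      Real.exp (-((h ^ 2 + h' ^ 2) / (2 * (h * h')) * x)) * Real.exp (-(τ ^ 2 / (h * h') * x / 2)) := by
    rw [← Real.exp_add]
    congr 1
    field_simp
    ring
  rw [h2, h3]
  ring

/-- **Job 31164.** -/
theorem yi2 (h1 : Pool.Agent.Q255.L2Y.S_YI1) (h2 : S_KODE) (h3 : S_KBB) : Pool.Agent.Q255.L2Y.S_YI2 := by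
  intro T h h' τ hT hh hh'
  have hp := Real.pi_pos
  have hP : 0 < √(h * h') := Real.sqrt_pos.2 (mul_pos hh hh')
  have e1 : ∀ t ∈ Ioi (0 : ℝ), KB T (2 * Real.pi * (h * t)) * KB T (2 * Real.pi * (h' * t)) *
      Real.cos (2 * Real.pi * t * τ) = 1 / 2 * ∫ v in Ioi (0 : ℝ), FI T h h' τ (t, v) := by
    intro t ht
    have ht' : 0 < t := ht
    rw [(h1 T (2 * Real.pi * (h * t)) (2 * Real.pi * (h' * t)) (by positivity) (by positivity)).2]
    have e0 : ∫ v in Ioi (0 : ℝ), FI T h h' τ (t, v) = (∫ w in Ioi (0 : ℝ),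
        Real.exp (-(w + ((2 * Real.pi * (h * t)) ^ 2 + (2 * Real.pi * (h' * t)) ^ 2) / w) / 2) *
          KB T (2 * Real.pi * (h * t) * (2 * Real.pi * (h' * t)) / w) / w) * Real.cos (2 * Real.pi * t * τ) := by
      rw [← integral_mul_const]
      rfl
    rw [e0]
    ring
  have e2 := integral_integral_swap (f := fun t v => FI T h h' τ (t, v)) (FI_int h2 h3 τ hT hh hh')
  have e3 := integral_integral_swap (f := fun x v => GI T h h' τ (x, v)) (GI_int h2 h3 τ hT hh hh')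
  have e4 : ∫ v in Ioi (0 : ℝ), ∫ t in Ioi (0 : ℝ), FI T h h' τ (t, v) =
      ∫ v in Ioi (0 : ℝ), ∫ x in Ioi (0 : ℝ), GI T h h' τ (x, v) :=
    setIntegral_congr_fun measurableSet_Ioi fun v hv => inner_x τ hh hh' hv
  have e5 : ∫ x in Ioi (0 : ℝ), ∫ v in Ioi (0 : ℝ), GI T h h' τ (x, v) =
      ∫ x in Ioi (0 : ℝ), 1 / (4 * Real.pi * √(h * h')) * √(2 * Real.pi) *
      (Real.exp (-(x * ((h ^ 2 + h' ^ 2 + τ ^ 2) / (2 * h * h')))) * KB T x / √x) :=
    setIntegral_congr_fun measurableSet_Ioi fun x hx => inner_v τ hh hh' hx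
  rw [setIntegral_congr_fun measurableSet_Ioi e1, integral_const_mul, e2, e4, ← e3, e5, integral_const_mul]
  generalize (∫ x in Ioi (0 : ℝ), Real.exp (-(x * ((h ^ 2 + h' ^ 2 + τ ^ 2) / (2 * h * h')))) * KB T x / √x) = Q
  field_simp
  ring

end Pool.Agent.Q38.L2Y
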