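import Mathlib

/-!
# Partial summation against smooth weights with a logarithmic singularity at the origin
-/

set_option autoImplicit false

namespace Pool.Agent.Q38.L2Y

open Finset MeasureTheory

/-- Abel summation. -/
theorem abel (δ g : ℕ → ℝ) (M : ℕ) (hM : 1 ≤ M) :
    ∑ n ∈ Icc 1 M, δ n * g n =
      (∑ n ∈ Icc 1 M, δ n) * g M - ∑ n ∈ Ico 1 M, (∑ k ∈ Icc 1 n, δ k) * (g (n + 1) - g n) := by
  induction M, hM using Nat.le_induction with
  | base => simp
  | succ M hM ih =>
    rw [Finset.sum_Icc_succ_top (by omega), ih, Finset.sum_Icc_succ_top (by omega),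
      Finset.sum_Ico_succ_top hM]
    ring

theorem sum_exp_le (x : ℝ) (hx : 0 < x) (M : ℕ) :
    ∑ n ∈ Ico 1 M, Real.exp (-(n * x)) ≤ 1 / x := by
  have h1 : ∀ n : ℕ, Real.exp (-(n * x)) = Real.exp (-x) ^ n := by
    intro n
    rw [← Real.exp_nat_mul]
    congr 1
    ring
  simp only [h1]
  have hr0 : 0 ≤ Real.exp (-x) := (Real.exp_pos _).le
  have hr1 : Real.exp (-x) < 1 := by
    rw [Real.exp_lt_one_iff]
    linarith
  have h2 : ∑ n ∈ Ico 1 M, Real.exp (-x) ^ n ≤ ∑' n : ℕ, Real.exp (-x) ^ (n + 1) := by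
    have hs : Summable fun n : ℕ => Real.exp (-x) ^ (n + 1) :=
      (summable_nat_add_iff 1).mpr (summable_geometric_of_lt_one hr0 hr1)
    have h3 : ∑ n ∈ Ico 1 M, Real.exp (-x) ^ n = ∑ n ∈ range (M - 1), Real.exp (-x) ^ (n + 1) := by
      rw [Finset.sum_Ico_eq_sum_range]
      apply sum_congr rfl
      intro n _
      rw [add_comm]
    rw [h3]
    exact hs.sum_le_tsum _ (fun n _ => by positivity)
  refine h2.trans ?_
  have h4 : ∑' n : ℕ, Real.exp (-x) ^ (n + 1) = Real.exp (-x) * (1 - Real.exp (-x))⁻¹ := by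
    simp only [pow_succ']
    rw [tsum_mul_left, tsum_geometric_of_lt_one hr0 hr1]
  rw [h4, ← div_eq_mul_inv, div_le_div_iff₀ (by linarith) hx]
  have h5 : x + 1 ≤ Real.exp x := Real.add_one_le_exp x
  have h6 : Real.exp (-x) * Real.exp x = 1 := by
    rw [← Real.exp_add]
    simp
  nlinarith [Real.exp_pos (-x)]

theorem sum_inv_le (M : ℕ) (hM : 1 ≤ M) : ∑ n ∈ Ico 1 M, (1 : ℝ) / n ≤ 1 + Real.log M := by
  have h1 : ∑ n ∈ Ico 1 M, (1 : ℝ) / n ≤ (harmonic M : ℝ) := by
    rw [harmonic_eq_sum_Icc]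
    push_cast
    simp only [one_div]
    apply sum_le_sum_of_subset_of_nonneg
    · intro n hn
      rw [mem_Ico] at hn
      rw [mem_Icc]
      omega
    · intro n _ _
      positivity
  exact h1.trans (harmonic_le_one_add_log M)

/-- mean value bound on a step -/
theorem step_le {G G' : ℝ → ℝ} {B c : ℝ} (hB : 0 ≤ B) (hc : 0 < c)
    (hd : ∀ t, 0 < t → HasDerivAt G (G' t) t)
    (hG' : ∀ t, 0 < t → |G' t| ≤ B * (1 + 1 / t) * Real.exp (-(c * t)))
    {y : ℝ} (hy : 0 < y) {n : ℕ} (hn : 1 ≤ n) {t : ℝ} (ht1 : n * y ≤ t) (ht2 : t ≤ (n + 1) * y) :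
    |G ((n + 1) * y) - G t| ≤ B * (y + 1 / n) * Real.exp (-(c * (n * y))) := by
  have hn' : (1 : ℝ) ≤ n := by exact_mod_cast hn
  have hny : 0 < n * y := by positivity
  have key : ‖G ((n + 1) * y) - G t‖ ≤ (B * (1 + 1 / (n * y)) * Real.exp (-(c * (n * y)))) *
      ‖(n + 1) * y - t‖ := by
    refine Convex.norm_image_sub_le_of_norm_hasDerivWithin_le (f' := G')
      (s := Set.Icc (n * y) ((n + 1) * y)) ?_ ?_ (convex_Icc _ _) ⟨ht1, ht2⟩ ⟨by nlinarith, le_rfl⟩
    · intro x hx
      exact (hd x (hny.trans_le hx.1)).hasDerivWithinAt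
    · intro x hx
      have hx0 : 0 < x := hny.trans_le hx.1
      refine (hG' x hx0).trans ?_
      have e1 : 1 / x ≤ 1 / (n * y) := one_div_le_one_div_of_le hny hx.1
      have e2 : Real.exp (-(c * x)) ≤ Real.exp (-(c * (n * y))) := by
        apply Real.exp_le_exp.mpr
        have := mul_le_mul_of_nonneg_left hx.1 hc.le
        linarith
      have e3 : 0 ≤ 1 / x := by positivity
      exact mul_le_mul (mul_le_mul_of_nonneg_left (by linarith) hB) e2 (Real.exp_pos _).le
        (by positivity)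
  rw [Real.norm_eq_abs, Real.norm_eq_abs] at key
  refine key.trans ?_
  have h1 : |(n + 1) * y - t| ≤ y := by
    rw [abs_le]
    constructor <;> nlinarith
  have h2 : (B * (1 + 1 / (n * y)) * Real.exp (-(c * (n * y)))) * |(n + 1) * y - t| ≤
      (B * (1 + 1 / (n * y)) * Real.exp (-(c * (n * y)))) * y :=
    mul_le_mul_of_nonneg_left h1 (by positivity)
  refine h2.trans (le_of_eq ?_)
  have h3 : (1 + 1 / (n * y)) * y = y + 1 / n := by
    field_simp
  calc (B * (1 + 1 / (n * y)) * Real.exp (-(c * (n * y)))) * y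
      = B * ((1 + 1 / (n * y)) * y) * Real.exp (-(c * (n * y))) := by ring
    _ = _ := by rw [h3]

theorem integrable_G {G G' : ℝ → ℝ} {B c : ℝ} (hc : 0 < c)
    (hd : ∀ t, 0 < t → HasDerivAt G (G' t) t)
    (hG : ∀ t, 0 < t → |G t| ≤ B * Real.exp (-(c * t))) :
    IntegrableOn G (Set.Ioi 0) := by
  have h1 : IntegrableOn (fun t : ℝ => B * Real.exp (-c * t)) (Set.Ioi 0) :=
    (integrableOn_exp_mul_Ioi (by linarith) 0).const_mul B
  refine Integrable.mono' h1 ?_ ?_
  · exact (ContinuousOn.aestronglyMeasurable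
      (fun t ht => (hd t ht).continuousAt.continuousWithinAt) measurableSet_Ioi)
  · refine (ae_restrict_iff' measurableSet_Ioi).mpr (Filter.Eventually.of_forall ?_)
    intro t ht
    rw [Real.norm_eq_abs, neg_mul]
    exact hG t ht

/-- the Riemann sum -/
theorem riemann {G G' : ℝ → ℝ} {B c : ℝ} (hB : 0 ≤ B) (hc : 0 < c)
    (hd : ∀ t, 0 < t → HasDerivAt G (G' t) t)
    (hG : ∀ t, 0 < t → |G t| ≤ B * Real.exp (-(c * t)))
    (hG' : ∀ t, 0 < t → |G' t| ≤ B * (1 + 1 / t) * Real.exp (-(c * t)))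
    {y : ℝ} (hy : 0 < y) {M : ℕ} (hM : 1 ≤ M) :
    |y * ∑ n ∈ Icc 1 M, G (n * y) - ∫ t in Set.Ioi (0 : ℝ), G t| ≤
      B * (y * (2 + 1 / c + 1 + Real.log M) + 1 / (c ^ 2 * (M * y))) := by
  have hint := integrable_G hc hd hG
  have hM' : (1 : ℝ) ≤ M := by exact_mod_cast hM
  have hMy : 0 < M * y := by positivity
  -- the integral in steps
  have hsub : ∀ n : ℕ, IntervalIntegrable G volume (n * y) ((n + 1 : ℕ) * y) := by
    intro n
    rw [intervalIntegrable_iff_integrableOn_Ioc_of_le (by push_cast; nlinarith)]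
    refine hint.mono_set ?_
    intro t ht
    exact lt_of_le_of_lt (by positivity) ht.1
  have hsplit : ∫ t in Set.Ioi (0 : ℝ), G t =
      (∑ n ∈ range M, ∫ t in (n * y)..((n + 1 : ℕ) * y), G t) + ∫ t in Set.Ioi (M * y), G t := by
    have hdisj : Disjoint (Set.Ioc 0 (M * y)) (Set.Ioi (M * y)) :=
      Set.disjoint_left.mpr (fun t h h' => not_lt.mpr h.2 h')
    have h1 := intervalIntegral.sum_integral_adjacent_intervals (f := G) (μ := volume)
      (a := fun n : ℕ => (n : ℝ) * y) (n := M) (fun k _ => hsub k)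
    rw [h1, Nat.cast_zero, zero_mul, intervalIntegral.integral_of_le hMy.le,
      ← Set.Ioc_union_Ioi_eq_Ioi hMy.le,
      setIntegral_union hdisj measurableSet_Ioi
        (hint.mono_set Set.Ioc_subset_Ioi_self)
        (hint.mono_set (Set.Ioi_subset_Ioi hMy.le))]
  have htail : |∫ t in Set.Ioi (M * y), G t| ≤ B * (1 / (c ^ 2 * (M * y))) := by
    have h1 : |∫ t in Set.Ioi (M * y), G t| ≤ ∫ t in Set.Ioi (M * y), B * Real.exp (-c * t) := by
      rw [← Real.norm_eq_abs]
      refine norm_integral_le_of_norm_le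
        ((integrableOn_exp_mul_Ioi (by linarith) _).const_mul B) ?_
      refine (ae_restrict_iff' measurableSet_Ioi).mpr (Filter.Eventually.of_forall ?_)
      intro t ht
      rw [Real.norm_eq_abs, neg_mul]
      exact hG t (hMy.trans ht)
    refine h1.trans ?_
    rw [integral_const_mul, integral_exp_mul_Ioi (by linarith)]
    refine mul_le_mul_of_nonneg_left ?_ hB
    have h2 : -Real.exp (-c * (M * y)) / -c = Real.exp (-(c * (M * y))) / c := by
      rw [neg_div_neg_eq, neg_mul]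
    rw [h2]
    have h3 : Real.exp (-(c * (M * y))) ≤ 1 / (c * (M * y)) := by
      rw [Real.exp_neg, ← one_div]
      apply one_div_le_one_div_of_le (by positivity)
      have := Real.add_one_le_exp (c * (M * y))
      linarith
    calc Real.exp (-(c * (M * y))) / c ≤ (1 / (c * (M * y))) / c := by gcongr
      _ = 1 / (c ^ 2 * (M * y)) := by field_simp
  have hsum : y * ∑ n ∈ Icc 1 M, G (n * y) = ∑ n ∈ range M, y * G ((n + 1) * y) := by
    rw [mul_sum]
    have h1 : Icc 1 M = (range M).image (fun n => n + 1) := by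
      ext n
      simp only [mem_Icc, mem_image, mem_range]
      constructor
      · intro h
        exact ⟨n - 1, by omega, by omega⟩
      · rintro ⟨m, hm, rfl⟩
        omega
    rw [h1, sum_image (fun a _ b _ h => by simpa using h)]
    apply sum_congr rfl
    intro n _
    push_cast
    ring
  -- one step
  have hstep : ∀ n : ℕ, |y * G ((n + 1) * y) - ∫ t in (n * y)..((n + 1 : ℕ) * y), G t| ≤
      B * (if n = 0 then 2 * y else y ^ 2 * Real.exp (-(c * (n * y))) + y * (1 / n)) := by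
    intro n
    have hle : n * y ≤ ((n + 1 : ℕ) : ℝ) * y := by push_cast; nlinarith
    have hconst : y * G ((n + 1) * y) = ∫ _ in (n * y)..((n + 1 : ℕ) * y), G ((n + 1) * y) := by
      rw [intervalIntegral.integral_const]
      push_cast
      rw [smul_eq_mul]
      ring
    rw [hconst, ← intervalIntegral.integral_sub intervalIntegrable_const (hsub n)]
    have hnorm : ∀ K : ℝ, (∀ t, t ∈ Set.Ioc (n * y) (((n + 1 : ℕ) : ℝ) * y) →
        |G ((n + 1) * y) - G t| ≤ K) →
        |∫ t in (n * y)..((n + 1 : ℕ) * y), (G ((n + 1) * y) - G t)| ≤ K * y := by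
      intro K hK
      have := intervalIntegral.norm_integral_le_of_norm_le_const (a := n * y)
        (b := ((n + 1 : ℕ) : ℝ) * y) (C := K) (f := fun t => G ((n + 1) * y) - G t) (by
          intro t ht
          rw [Set.uIoc_of_le hle] at ht
          exact hK t ht)
      rw [Real.norm_eq_abs] at this
      refine this.trans (le_of_eq ?_)
      push_cast
      rw [show ((n : ℝ) + 1) * y - n * y = y by ring, abs_of_pos hy]
    split_ifs with h
    · subst h
      refine (hnorm (2 * B) ?_).trans (le_of_eq (by ring))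
      intro t ht
      have ht0 : 0 < t := lt_of_le_of_lt (by positivity) ht.1
      have e1 : |G (((0 : ℕ) + 1) * y)| ≤ B := by
        refine (hG _ (by positivity)).trans ?_
        have : Real.exp (-(c * (((0 : ℕ) + 1) * y))) ≤ 1 := by
          rw [Real.exp_le_one_iff]
          have : 0 ≤ c * ((((0 : ℕ) : ℝ) + 1) * y) := by positivity
          linarith
        exact mul_le_of_le_one_right hB this
      have e2 : |G t| ≤ B := by
        refine (hG _ ht0).trans ?_
        have : Real.exp (-(c * t)) ≤ 1 := by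
          rw [Real.exp_le_one_iff]
          have : 0 ≤ c * t := by positivity
          linarith
        exact mul_le_of_le_one_right hB this
      calc |G (((0 : ℕ) + 1) * y) - G t| ≤ |G (((0 : ℕ) + 1) * y)| + |G t| := abs_sub _ _
        _ ≤ 2 * B := by linarith
    · have hn : 1 ≤ n := Nat.one_le_iff_ne_zero.mpr h
      have hn' : (1 : ℝ) ≤ n := by exact_mod_cast hn
      refine (hnorm (B * (y + 1 / n) * Real.exp (-(c * (n * y)))) ?_).trans ?_
      · intro t ht
        refine step_le hB hc hd hG' hy hn ht.1.le ?_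
        have := ht.2
        push_cast at this
        exact this
      · have e1 : Real.exp (-(c * (n * y))) ≤ 1 := by
          rw [Real.exp_le_one_iff]
          have : 0 ≤ c * (n * y) := by positivity
          linarith
        have e2 : 1 / (n : ℝ) * Real.exp (-(c * (n * y))) ≤ 1 / n :=
          mul_le_of_le_one_right (by positivity) e1
        calc B * (y + 1 / n) * Real.exp (-(c * (n * y))) * y
            = B * (y ^ 2 * Real.exp (-(c * (n * y))) + y * (1 / n * Real.exp (-(c * (n * y))))) := by ring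
          _ ≤ B * (y ^ 2 * Real.exp (-(c * (n * y))) + y * (1 / n)) := by
            refine mul_le_mul_of_nonneg_left ?_ hB
            have := mul_le_mul_of_nonneg_left e2 hy.le
            linarith
  have hsteps : |∑ n ∈ range M, y * G ((n + 1) * y) -
      ∑ n ∈ range M, ∫ t in (n * y)..((n + 1 : ℕ) * y), G t| ≤
      B * (y * (2 + 1 / c + 1 + Real.log M)) := by
    rw [← sum_sub_distrib]
    refine (abs_sum_le_sum_abs _ _).trans ((sum_le_sum (fun n _ => hstep n)).trans ?_)
    rw [← mul_sum]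
    refine mul_le_mul_of_nonneg_left ?_ hB
    have h1 : ∑ n ∈ range M, (if n = 0 then 2 * y else y ^ 2 * Real.exp (-(c * (n * y))) + y * (1 / n)) =
        2 * y + ∑ n ∈ Ico 1 M, (y ^ 2 * Real.exp (-(c * (n * y))) + y * (1 / n)) := by
      rw [range_eq_Ico, ← Finset.sum_Ioo_add_eq_sum_Ico (by omega : 0 < M)]
      have h2 : Ioo 0 M = Ico 1 M := by
        ext n
        simp only [mem_Ioo, mem_Ico]
        omega
      rw [h2, if_pos rfl, add_comm]
      congr 1
      apply sum_congr rfl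
      intro n hn
      rw [mem_Ico] at hn
      rw [if_neg (by omega)]
    rw [h1, sum_add_distrib, ← mul_sum, ← mul_sum]
    have h3 : ∑ n ∈ Ico 1 M, Real.exp (-(c * (n * y))) ≤ 1 / (c * y) := by
      have := sum_exp_le (c * y) (by positivity) M
      refine le_trans (le_of_eq ?_) this
      apply sum_congr rfl
      intro n _
      congr 1
      ring
    have h4 := sum_inv_le M hM
    have h5 : y ^ 2 * ∑ n ∈ Ico 1 M, Real.exp (-(c * (n * y))) ≤ y * (1 / c) := by
      calc y ^ 2 * ∑ n ∈ Ico 1 M, Real.exp (-(c * (n * y))) ≤ y ^ 2 * (1 / (c * y)) :=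
            mul_le_mul_of_nonneg_left h3 (by positivity)
        _ = y * (1 / c) := by field_simp
    have h6 := mul_le_mul_of_nonneg_left h4 hy.le
    nlinarith
  rw [hsum, hsplit]
  calc |∑ n ∈ range M, y * G ((n + 1) * y) -
        (∑ n ∈ range M, (∫ t in (n * y)..((n + 1 : ℕ) * y), G t) + ∫ t in Set.Ioi (M * y), G t)|
      = |(∑ n ∈ range M, y * G ((n + 1) * y) -
        ∑ n ∈ range M, ∫ t in (n * y)..((n + 1 : ℕ) * y), G t) - ∫ t in Set.Ioi (M * y), G t| := by
        congr 1; ring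
    _ ≤ |∑ n ∈ range M, y * G ((n + 1) * y) -
        ∑ n ∈ range M, ∫ t in (n * y)..((n + 1 : ℕ) * y), G t| + |∫ t in Set.Ioi (M * y), G t| :=
        abs_sub _ _
    _ ≤ B * (y * (2 + 1 / c + 1 + Real.log M)) + B * (1 / (c ^ 2 * (M * y))) :=
        add_le_add hsteps htail
    _ = _ := by ring

/-- the fluctuations -/
theorem fluct {G G' : ℝ → ℝ} {B c C η : ℝ} (hB : 0 ≤ B) (hc : 0 < c) (hC : 0 ≤ C) (hη : 0 < η)
    (hη1 : η < 1)
    (hd : ∀ t, 0 < t → HasDerivAt G (G' t) t)
    (hG : ∀ t, 0 < t → |G t| ≤ B * Real.exp (-(c * t)))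
    (hG' : ∀ t, 0 < t → |G' t| ≤ B * (1 + 1 / t) * Real.exp (-(c * t)))
    (δ : ℕ → ℝ) (hδ : ∀ N : ℕ, 1 ≤ N → |∑ n ∈ Icc 1 N, δ n| ≤ C * (N : ℝ) ^ (1 - η))
    {y : ℝ} (hy : 0 < y) {M : ℕ} (hM : 1 ≤ M) :
    |y * ∑ n ∈ Icc 1 M, δ n * G (n * y)| ≤
      B * C * ((1 / c) * (M : ℝ) ^ (-η) +
        (2 / c + 1) * (y ^ (η / 2) * (2 / c) + y ^ (1 / 2 : ℝ) * (1 + Real.log M))) := by
  have hM' : (1 : ℝ) ≤ M := by exact_mod_cast hM
  have hab := abel δ (fun n => G (n * y)) M hM
  rw [hab]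
  have hpow : ∀ n : ℕ, 1 ≤ n → (n : ℝ) ^ (1 - η) = n * (n : ℝ) ^ (-η) := by
    intro n hn
    have hn' : (0 : ℝ) < n := by exact_mod_cast hn
    rw [show (1 - η : ℝ) = 1 + -η by ring, Real.rpow_add hn', Real.rpow_one]
  -- the boundary term
  have h1 : |y * ((∑ n ∈ Icc 1 M, δ n) * G (M * y))| ≤ B * C * ((1 / c) * (M : ℝ) ^ (-η)) := by
    rw [abs_mul, abs_mul, abs_of_pos hy]
    have e1 := hδ M hM
    have e2 := hG (M * y) (by positivity)
    have e3 : M * y * Real.exp (-(c * (M * y))) ≤ 1 / c := by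
      have := Real.add_one_le_exp (c * (M * y))
      rw [Real.exp_neg, ← div_eq_mul_inv, div_le_div_iff₀ (Real.exp_pos _) hc]
      nlinarith
    calc y * (|∑ n ∈ Icc 1 M, δ n| * |G (M * y)|)
        ≤ y * (C * (M : ℝ) ^ (1 - η) * (B * Real.exp (-(c * (M * y))))) := by
          refine mul_le_mul_of_nonneg_left ?_ hy.le
          exact mul_le_mul e1 e2 (abs_nonneg _) (by positivity)
      _ = B * C * ((M * y * Real.exp (-(c * (M * y)))) * (M : ℝ) ^ (-η)) := by
          rw [hpow M hM]; ring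
      _ ≤ B * C * ((1 / c) * (M : ℝ) ^ (-η)) := by
          refine mul_le_mul_of_nonneg_left ?_ (by positivity)
          exact mul_le_mul_of_nonneg_right e3 (by positivity)
  -- the other terms
  have h2 : ∀ n ∈ Ico 1 M, |(∑ k ∈ Icc 1 n, δ k) * (G ((n + 1 : ℕ) * y) - G (n * y))| ≤
      B * C * ((2 / c + 1) * ((y ^ (η / 2) + y ^ (-(1 / 2) : ℝ) * (1 / n)) * Real.exp (-(c / 2 * (n * y))))) := by
    intro n hn
    rw [mem_Ico] at hn
    have hn1 : (1 : ℝ) ≤ n := by exact_mod_cast hn.1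
    have e1 := hδ n hn.1
    have e2 := step_le hB hc hd hG' hy hn.1 (t := n * y) le_rfl (by nlinarith)
    rw [abs_mul]
    have e3 : |G ((n + 1 : ℕ) * y) - G (n * y)| ≤ B * (y + 1 / n) * Real.exp (-(c * (n * y))) := by
      push_cast
      exact e2
    have e4 : (n * y + 1) * Real.exp (-(c * (n * y))) ≤ (2 / c + 1) * Real.exp (-(c / 2 * (n * y))) := by
      have f1 : Real.exp (-(c * (n * y))) = Real.exp (-(c / 2 * (n * y))) * Real.exp (-(c / 2 * (n * y))) := by
        rw [← Real.exp_add]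
        congr 1
        ring
      have f2 : n * y * Real.exp (-(c / 2 * (n * y))) ≤ 2 / c := by
        have := Real.add_one_le_exp (c / 2 * (n * y))
        rw [Real.exp_neg, ← div_eq_mul_inv, div_le_div_iff₀ (Real.exp_pos _) hc]
        nlinarith
      have f3 : Real.exp (-(c / 2 * (n * y))) ≤ 1 := by
        rw [Real.exp_le_one_iff]
        have : 0 ≤ c / 2 * (n * y) := by positivity
        linarith
      rw [f1]
      have f4 : (n * y + 1) * Real.exp (-(c / 2 * (n * y))) ≤ 2 / c + 1 := by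
        rw [add_mul, one_mul]
        linarith
      calc (n * y + 1) * (Real.exp (-(c / 2 * (n * y))) * Real.exp (-(c / 2 * (n * y))))
          = ((n * y + 1) * Real.exp (-(c / 2 * (n * y)))) * Real.exp (-(c / 2 * (n * y))) := by ring
        _ ≤ _ := mul_le_mul_of_nonneg_right f4 (Real.exp_pos _).le
    have e5 : (n : ℝ) ^ (-η) ≤ y ^ (η / 2) + y ^ (-(1 / 2) : ℝ) * (1 / n) := by
      rcases le_or_gt (y ^ (-(1 / 2) : ℝ)) n with h | h
      · have g1 : (n : ℝ) ^ (-η) ≤ (y ^ (-(1 / 2) : ℝ)) ^ (-η) :=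
          Real.rpow_le_rpow_of_nonpos (by positivity) h (by linarith)
        rw [← Real.rpow_mul hy.le] at g1
        have g2 : (-(1 / 2) : ℝ) * -η = η / 2 := by ring
        rw [g2] at g1
        have g3 : 0 ≤ y ^ (-(1 / 2) : ℝ) * (1 / n) := by positivity
        linarith
      · have g1 : (n : ℝ) ^ (-η) ≤ 1 := Real.rpow_le_one_of_one_le_of_nonpos hn1 (by linarith)
        have g2 : 1 ≤ y ^ (-(1 / 2) : ℝ) * (1 / n) := by
          rw [mul_one_div, one_le_div (by linarith)]
          exact h.le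
        have g3 : 0 ≤ y ^ (η / 2) := by positivity
        linarith
    calc |∑ k ∈ Icc 1 n, δ k| * |G ((n + 1 : ℕ) * y) - G (n * y)|
        ≤ C * (n : ℝ) ^ (1 - η) * (B * (y + 1 / n) * Real.exp (-(c * (n * y)))) :=
          mul_le_mul e1 e3 (abs_nonneg _) (by positivity)
      _ = B * C * ((n : ℝ) ^ (-η) * ((n * y + 1) * Real.exp (-(c * (n * y))))) := by
          rw [hpow n hn.1]
          have : (n : ℝ) * (y + 1 / n) = n * y + 1 := by field_simp
          calc C * (n * (n : ℝ) ^ (-η)) * (B * (y + 1 / n) * Real.exp (-(c * (n * y))))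
              = B * C * ((n : ℝ) ^ (-η) * ((n * (y + 1 / n)) * Real.exp (-(c * (n * y))))) := by ring
            _ = _ := by rw [this]
      _ ≤ B * C * ((y ^ (η / 2) + y ^ (-(1 / 2) : ℝ) * (1 / n)) *
            ((2 / c + 1) * Real.exp (-(c / 2 * (n * y))))) := by
          refine mul_le_mul_of_nonneg_left ?_ (by positivity)
          exact mul_le_mul e5 e4 (by positivity) (by positivity)
      _ = _ := by ring
  have h3 : |y * ∑ n ∈ Ico 1 M, (∑ k ∈ Icc 1 n, δ k) * (G ((n + 1 : ℕ) * y) - G (n * y))| ≤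
      B * C * ((2 / c + 1) * (y ^ (η / 2) * (2 / c) + y ^ (1 / 2 : ℝ) * (1 + Real.log M))) := by
    rw [abs_mul, abs_of_pos hy]
    have e1 := (abs_sum_le_sum_abs (fun n : ℕ => (∑ k ∈ Icc 1 n, δ k) *
      (G ((n + 1 : ℕ) * y) - G (n * y))) (Ico 1 M)).trans (sum_le_sum h2)
    rw [← mul_sum, ← mul_sum] at e1
    have e2 : ∑ n ∈ Ico 1 M, (y ^ (η / 2) + y ^ (-(1 / 2) : ℝ) * (1 / n)) * Real.exp (-(c / 2 * (n * y))) ≤
        y ^ (η / 2) * (1 / (c / 2 * y)) + y ^ (-(1 / 2) : ℝ) * (1 + Real.log M) := by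
      have f1 : ∑ n ∈ Ico 1 M, (y ^ (η / 2) + y ^ (-(1 / 2) : ℝ) * (1 / n)) * Real.exp (-(c / 2 * (n * y))) ≤
          ∑ n ∈ Ico 1 M, (y ^ (η / 2) * Real.exp (-(n * (c / 2 * y))) + y ^ (-(1 / 2) : ℝ) * (1 / n)) := by
        apply sum_le_sum
        intro n _
        have g1 : Real.exp (-(c / 2 * (n * y))) ≤ 1 := by
          rw [Real.exp_le_one_iff]
          have : 0 ≤ c / 2 * (n * y) := by positivity
          linarith
        have g2 : y ^ (-(1 / 2) : ℝ) * (1 / n) * Real.exp (-(c / 2 * (n * y))) ≤ y ^ (-(1 / 2) : ℝ) * (1 / n) :=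
          mul_le_of_le_one_right (by positivity) g1
        have g3 : c / 2 * (n * y) = n * (c / 2 * y) := by ring
        rw [add_mul]
        nth_rewrite 1 [g3]
        linarith
      refine f1.trans ?_
      rw [sum_add_distrib, ← mul_sum, ← mul_sum]
      exact add_le_add (mul_le_mul_of_nonneg_left (sum_exp_le _ (by positivity) M) (by positivity))
        (mul_le_mul_of_nonneg_left (sum_inv_le M hM) (by positivity))
    have e3 : y * y ^ (-(1 / 2) : ℝ) = y ^ (1 / 2 : ℝ) := by
      rw [show y * y ^ (-(1 / 2) : ℝ) = y ^ (1 : ℝ) * y ^ (-(1 / 2) : ℝ) by rw [Real.rpow_one],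
        ← Real.rpow_add hy]
      norm_num
    calc y * |∑ n ∈ Ico 1 M, (∑ k ∈ Icc 1 n, δ k) * (G ((n + 1 : ℕ) * y) - G (n * y))|
        ≤ y * (B * C * ((2 / c + 1) * (y ^ (η / 2) * (1 / (c / 2 * y)) +
            y ^ (-(1 / 2) : ℝ) * (1 + Real.log M)))) := by
          refine mul_le_mul_of_nonneg_left (e1.trans ?_) hy.le
          refine mul_le_mul_of_nonneg_left ?_ (by positivity)
          exact mul_le_mul_of_nonneg_left e2 (by positivity)
      _ = B * C * ((2 / c + 1) * (y ^ (η / 2) * (y * (1 / (c / 2 * y))) +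
            (y * y ^ (-(1 / 2) : ℝ)) * (1 + Real.log M))) := by ring
      _ = _ := by
          rw [e3]
          have : y * (1 / (c / 2 * y)) = 2 / c := by field_simp
          rw [this]
  calc |y * ((∑ n ∈ Icc 1 M, δ n) * G (M * y) -
        ∑ n ∈ Ico 1 M, (∑ k ∈ Icc 1 n, δ k) * (G ((n + 1 : ℕ) * y) - G (n * y)))|
      = |y * ((∑ n ∈ Icc 1 M, δ n) * G (M * y)) -
        y * ∑ n ∈ Ico 1 M, (∑ k ∈ Icc 1 n, δ k) * (G ((n + 1 : ℕ) * y) - G (n * y))| := by
        rw [mul_sub]
    _ ≤ _ := abs_sub _ _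
    _ ≤ B * C * ((1 / c) * (M : ℝ) ^ (-η)) +
        B * C * ((2 / c + 1) * (y ^ (η / 2) * (2 / c) + y ^ (1 / 2 : ℝ) * (1 + Real.log M))) :=
        add_le_add h1 h3
    _ = _ := by ring

end Pool.Agent.Q38.L2Y
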