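import Pool.Agent.Q255.L2.StmY
import Pool.Agent.Q150.L2.GQa
import Pool.Agent.Q38.L2Y.YVa

/-!
# The covariance: partial summation
-/

set_option autoImplicit false

namespace Pool.Agent.Q38.L2Y

open Finset MeasureTheory
open Pool.Agent.Q255.L2 Pool.Agent.Q255.L2Y Pool.Agent.Q255.EP

/-- the derivative of `tr` -/
noncomputable def tr1 (b b' : Bool) (θ : ℝ) : ℝ :=
  if b = b' then -Real.sin θ else if b then -Real.cos θ else Real.cos θ

theorem tr_deriv (b b' : Bool) (θ : ℝ) : HasDerivAt (tr b b') (tr1 b b' θ) θ := by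
  cases b <;> cases b'
  · have : tr false false = Real.cos := by funext x; simp [tr]
    rw [this]
    simpa [tr1] using Real.hasDerivAt_cos θ
  · have : tr false true = Real.sin := by funext x; simp [tr]
    rw [this]
    simpa [tr1] using Real.hasDerivAt_sin θ
  · have : tr true false = fun x => -Real.sin x := by funext x; simp [tr]
    rw [this]
    have h2 : tr1 true false θ = -Real.cos θ := by simp [tr1]
    rw [h2]
    exact (Real.hasDerivAt_sin θ).neg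
  · have : tr true true = Real.cos := by funext x; simp [tr]
    rw [this]
    simpa [tr1] using Real.hasDerivAt_cos θ

theorem tr_abs (b b' : Bool) (θ : ℝ) : |tr b b' θ| ≤ 1 := by
  unfold tr
  split_ifs
  · exact Real.abs_cos_le_one θ
  · rw [abs_neg]
    exact Real.abs_sin_le_one θ
  · exact Real.abs_sin_le_one θ

theorem tr1_abs (b b' : Bool) (θ : ℝ) : |tr1 b b' θ| ≤ 1 := by
  unfold tr1
  split_ifs
  · rw [abs_neg]
    exact Real.abs_sin_le_one θ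
  · rw [abs_neg]
    exact Real.abs_cos_le_one θ
  · exact Real.abs_cos_le_one θ

/-- the function which is integrated -/
noncomputable def GG (V W : ℝ → ℝ) (b b' : Bool) (h h' τ : ℝ) (t : ℝ) : ℝ :=
  √(h * h') * (V (h * t) * W (h' * t) * tr b b' (2 * Real.pi * t * τ))

/-- its derivative -/
noncomputable def GG1 (V V' W W' : ℝ → ℝ) (b b' : Bool) (h h' τ : ℝ) (t : ℝ) : ℝ :=
  √(h * h') * ((V' (h * t) * h * W (h' * t) + V (h * t) * (W' (h' * t) * h')) * tr b b' (2 * Real.pi * t * τ) +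
    V (h * t) * W (h' * t) * (tr1 b b' (2 * Real.pi * t * τ) * (2 * Real.pi * τ)))

theorem GG_deriv {V V' W W' : ℝ → ℝ} (hV : ∀ u, 0 < u → HasDerivAt V (V' u) u)
    (hW : ∀ u, 0 < u → HasDerivAt W (W' u) u) (b b' : Bool) {h h' : ℝ} (τ : ℝ) (hh : 0 < h) (hh' : 0 < h')
    {t : ℝ} (ht : 0 < t) : HasDerivAt (GG V W b b' h h' τ) (GG1 V V' W W' b b' h h' τ t) t := by
  have e1 : HasDerivAt (fun t => V (h * t)) (V' (h * t) * h) t := by
    have f : HasDerivAt (fun t : ℝ => h * t) h t := by simpa using (hasDerivAt_id t).const_mul h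
    exact (hV (h * t) (by positivity)).comp t f
  have e2 : HasDerivAt (fun t => W (h' * t)) (W' (h' * t) * h') t := by
    have f : HasDerivAt (fun t : ℝ => h' * t) h' t := by simpa using (hasDerivAt_id t).const_mul h'
    exact (hW (h' * t) (by positivity)).comp t f
  have e3 : HasDerivAt (fun t => tr b b' (2 * Real.pi * t * τ))
      (tr1 b b' (2 * Real.pi * t * τ) * (2 * Real.pi * τ)) t := by
    have f1 : HasDerivAt (fun t : ℝ => 2 * Real.pi * t * τ) (2 * Real.pi * τ) t := by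
      have := ((hasDerivAt_id t).const_mul (2 * Real.pi)).mul_const τ
      simpa using this
    exact (tr_deriv b b' (2 * Real.pi * t * τ)).comp t f1
  exact ((e1.mul e2).mul e3).const_mul _

theorem GG_bounds {V V' W W' : ℝ → ℝ} {C₁ c₁ C₂ c₂ h₀ h₁ L : ℝ} (hc₁ : 0 < c₁) (hc₂ : 0 < c₂)
    (hC₁ : 0 ≤ C₁) (hC₂ : 0 ≤ C₂)
    (hV : ∀ u, 0 < u → |V u| ≤ C₁ * Real.exp (-(c₁ * u)) ∧ |V' u| ≤ C₁ * Real.exp (-(c₁ * u)) / u)
    (hW : ∀ u, 0 < u → |W u| ≤ C₂ * Real.exp (-(c₂ * u)) ∧ |W' u| ≤ C₂ * Real.exp (-(c₂ * u)) / u)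
    (h0 : 0 < h₀) (hL : 0 ≤ L) (b b' : Bool) {h h' τ : ℝ} (ha : h₀ ≤ h) (hb : h ≤ h₁) (ha' : h₀ ≤ h')
    (hb' : h' ≤ h₁) (hτ : |τ| ≤ 2 * L) {t : ℝ} (ht : 0 < t) :
    |GG V W b b' h h' τ t| ≤ (h₁ * (C₁ * C₂) * (2 + 4 * Real.pi * L)) * Real.exp (-((c₁ + c₂) * h₀ * t)) ∧
    |GG1 V V' W W' b b' h h' τ t| ≤ (h₁ * (C₁ * C₂) * (2 + 4 * Real.pi * L)) * (1 + 1 / t) *
      Real.exp (-((c₁ + c₂) * h₀ * t)) := by
  have hh : 0 < h := h0.trans_le ha
  have hh' : 0 < h' := h0.trans_le ha'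
  have h1p : 0 < h₁ := hh.trans_le hb
  have hsq : √(h * h') ≤ h₁ := by
    rw [show h₁ = √(h₁ ^ 2) by rw [Real.sqrt_sq h1p.le]]
    apply Real.sqrt_le_sqrt
    rw [sq]
    exact mul_le_mul hb hb' hh'.le h1p.le
  obtain ⟨v1, v2⟩ := hV (h * t) (by positivity)
  obtain ⟨w1, w2⟩ := hW (h' * t) (by positivity)
  set E₁ := Real.exp (-(c₁ * (h * t))) with hE₁
  set E₂ := Real.exp (-(c₂ * (h' * t))) with hE₂
  have hE : E₁ * E₂ ≤ Real.exp (-((c₁ + c₂) * h₀ * t)) := by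
    rw [hE₁, hE₂, ← Real.exp_add]
    apply Real.exp_le_exp.mpr
    have f1 : c₁ * (h₀ * t) ≤ c₁ * (h * t) :=
      mul_le_mul_of_nonneg_left (mul_le_mul_of_nonneg_right ha ht.le) hc₁.le
    have f2 : c₂ * (h₀ * t) ≤ c₂ * (h' * t) :=
      mul_le_mul_of_nonneg_left (mul_le_mul_of_nonneg_right ha' ht.le) hc₂.le
    nlinarith
  have hE₁0 : 0 < E₁ := Real.exp_pos _
  have hE₂0 : 0 < E₂ := Real.exp_pos _
  set E := Real.exp (-((c₁ + c₂) * h₀ * t)) with hEdef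
  have hE0 : 0 < E := Real.exp_pos _
  have hpi := Real.pi_pos
  have hVW : |V (h * t) * W (h' * t)| ≤ C₁ * C₂ * E := by
    rw [abs_mul]
    calc |V (h * t)| * |W (h' * t)| ≤ (C₁ * E₁) * (C₂ * E₂) := mul_le_mul v1 w1 (abs_nonneg _) (by positivity)
      _ = C₁ * C₂ * (E₁ * E₂) := by ring
      _ ≤ C₁ * C₂ * E := mul_le_mul_of_nonneg_left hE (by positivity)
  constructor
  · unfold GG
    rw [abs_mul, abs_mul, abs_of_nonneg (Real.sqrt_nonneg _)]
    calc √(h * h') * (|V (h * t) * W (h' * t)| * |tr b b' (2 * Real.pi * t * τ)|)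
        ≤ h₁ * (C₁ * C₂ * E * 1) := by
          refine mul_le_mul hsq ?_ (by positivity) h1p.le
          exact mul_le_mul hVW (tr_abs _ _ _) (abs_nonneg _) (by positivity)
      _ = h₁ * (C₁ * C₂) * 1 * E := by ring
      _ ≤ h₁ * (C₁ * C₂) * (2 + 4 * Real.pi * L) * E := by
          refine mul_le_mul_of_nonneg_right ?_ hE0.le
          refine mul_le_mul_of_nonneg_left ?_ (by positivity)
          have : 0 ≤ 4 * Real.pi * L := by positivity
          linarith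
  · unfold GG1
    rw [abs_mul, abs_of_nonneg (Real.sqrt_nonneg _)]
    have a1 : |V' (h * t) * h * W (h' * t)| ≤ C₁ * C₂ * E * (1 / t) := by
      rw [abs_mul, abs_mul, abs_of_pos hh]
      calc |V' (h * t)| * h * |W (h' * t)| ≤ (C₁ * E₁ / (h * t)) * h * (C₂ * E₂) := by
            refine mul_le_mul ?_ w1 (abs_nonneg _) (by positivity)
            exact mul_le_mul_of_nonneg_right v2 hh.le
        _ = C₁ * C₂ * (E₁ * E₂) * (1 / t) := by field_simp
        _ ≤ C₁ * C₂ * E * (1 / t) :=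
            mul_le_mul_of_nonneg_right (mul_le_mul_of_nonneg_left hE (by positivity)) (by positivity)
    have a2 : |V (h * t) * (W' (h' * t) * h')| ≤ C₁ * C₂ * E * (1 / t) := by
      rw [abs_mul, abs_mul, abs_of_pos hh']
      calc |V (h * t)| * (|W' (h' * t)| * h') ≤ (C₁ * E₁) * ((C₂ * E₂ / (h' * t)) * h') := by
            refine mul_le_mul v1 ?_ (by positivity) (by positivity)
            exact mul_le_mul_of_nonneg_right w2 hh'.le
        _ = C₁ * C₂ * (E₁ * E₂) * (1 / t) := by field_simp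
        _ ≤ C₁ * C₂ * E * (1 / t) :=
            mul_le_mul_of_nonneg_right (mul_le_mul_of_nonneg_left hE (by positivity)) (by positivity)
    have a3 : |tr1 b b' (2 * Real.pi * t * τ) * (2 * Real.pi * τ)| ≤ 4 * Real.pi * L := by
      rw [abs_mul, abs_mul, abs_of_pos (show (0 : ℝ) < 2 * Real.pi by positivity)]
      calc |tr1 b b' (2 * Real.pi * t * τ)| * (2 * Real.pi * |τ|) ≤ 1 * (2 * Real.pi * (2 * L)) := by
            refine mul_le_mul (tr1_abs _ _ _) ?_ (by positivity) zero_le_one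
            exact mul_le_mul_of_nonneg_left hτ (by positivity)
        _ = 4 * Real.pi * L := by ring
    have a4 : |(V' (h * t) * h * W (h' * t) + V (h * t) * (W' (h' * t) * h')) * tr b b' (2 * Real.pi * t * τ)| ≤
        C₁ * C₂ * E * (2 * (1 / t)) := by
      rw [abs_mul]
      calc |V' (h * t) * h * W (h' * t) + V (h * t) * (W' (h' * t) * h')| * |tr b b' (2 * Real.pi * t * τ)|
          ≤ (C₁ * C₂ * E * (1 / t) + C₁ * C₂ * E * (1 / t)) * 1 := by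
            refine mul_le_mul ((abs_add_le _ _).trans (add_le_add a1 a2)) (tr_abs _ _ _) (abs_nonneg _)
              (by positivity)
        _ = C₁ * C₂ * E * (2 * (1 / t)) := by ring
    have a5 : |V (h * t) * W (h' * t) * (tr1 b b' (2 * Real.pi * t * τ) * (2 * Real.pi * τ))| ≤
        C₁ * C₂ * E * (4 * Real.pi * L) := by
      rw [abs_mul]
      exact mul_le_mul hVW a3 (abs_nonneg _) (by positivity)
    calc √(h * h') * |(V' (h * t) * h * W (h' * t) + V (h * t) * (W' (h' * t) * h')) *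
          tr b b' (2 * Real.pi * t * τ) + V (h * t) * W (h' * t) * (tr1 b b' (2 * Real.pi * t * τ) *
            (2 * Real.pi * τ))|
        ≤ h₁ * (C₁ * C₂ * E * (2 * (1 / t)) + C₁ * C₂ * E * (4 * Real.pi * L)) :=
          mul_le_mul hsq ((abs_add_le _ _).trans (add_le_add a4 a5)) (abs_nonneg _) h1p.le
      _ = h₁ * (C₁ * C₂) * (2 * (1 / t) + 4 * Real.pi * L) * E := by ring
      _ ≤ h₁ * (C₁ * C₂) * ((2 + 4 * Real.pi * L) * (1 + 1 / t)) * E := by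
          refine mul_le_mul_of_nonneg_right ?_ hE0.le
          refine mul_le_mul_of_nonneg_left ?_ (by positivity)
          have f1 : 0 ≤ 4 * Real.pi * L * (1 / t) := by positivity
          have f2 : 0 ≤ 1 / t := by positivity
          nlinarith
      _ = _ := by ring

/-- the two terms of the same absolute value -/
theorem pair_eq (b b' : Bool) (a a' : ℕ → ℝ) (V W : ℝ → ℝ) {M : ℝ} {y h h' : ℝ} (τ τ' : ℝ)
    (hy : 0 < y) (hh : 0 < h) (hh' : 0 < h') {n : ℕ} (hn : 1 ≤ n) (hM : (n : ℝ) ≤ M) :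
    (ut b a V M (y * h) n * ee (((n : ℤ) : ℝ) * (y * τ))) *
        (ut b' a' W M (y * h') (-(n : ℤ)) * ee (((-(n : ℤ) : ℤ) : ℝ) * (y * τ'))) +
      (ut b a V M (y * h) (-(n : ℤ)) * ee (((-(n : ℤ) : ℤ) : ℝ) * (y * τ))) *
        (ut b' a' W M (y * h') (-(-(n : ℤ))) * ee (((-(-(n : ℤ)) : ℤ) : ℝ) * (y * τ'))) =
      ((1 / 2 * (y * (a n * a' n * GG V W b b' h h' (τ - τ') (n * y))) : ℝ) : ℂ) := by
  have hn0 : (n : ℤ) ≠ 0 := by exact_mod_cast (show n ≠ 0 by omega)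
  have hs : Int.sign (n : ℤ) = 1 := Int.sign_eq_one_of_pos (by exact_mod_cast hn)
  have c1 : ((n : ℤ) ≠ 0 ∧ (((n : ℤ).natAbs : ℕ) : ℝ) ≤ M) := ⟨hn0, by simpa using hM⟩
  have c2 : ((-(n : ℤ)) ≠ 0 ∧ (((-(n : ℤ)).natAbs : ℕ) : ℝ) ≤ M) := ⟨by omega, by simpa using hM⟩
  have c3 : ((-(-(n : ℤ))) ≠ 0 ∧ (((-(-(n : ℤ))).natAbs : ℕ) : ℝ) ≤ M) := ⟨by omega, by simpa using hM⟩
  unfold ut
  rw [if_pos c1, if_pos c2, if_pos c2, if_pos c3]
  have n1 : (n : ℤ).natAbs = n := Int.natAbs_natCast n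
  have n2 : (-(n : ℤ)).natAbs = n := by rw [Int.natAbs_neg, n1]
  have n3 : (-(-(n : ℤ))).natAbs = n := by rw [neg_neg, n1]
  have s2 : Int.sign (-(n : ℤ)) = -1 := by rw [Int.sign_neg, hs]
  have s3 : Int.sign (-(-(n : ℤ))) = 1 := by rw [neg_neg, hs]
  rw [n1, n2, n3, hs, s2, s3]
  have hroot : √(y * h) * √(y * h') = y * √(h * h') := by
    rw [← Real.sqrt_mul (by positivity), show y * h * (y * h') = y ^ 2 * (h * h') by ring,
      Real.sqrt_mul (by positivity), Real.sqrt_sq hy.le]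
  set θ : ℝ := 2 * Real.pi * (n * y) * (τ - τ') with hθ
  have ex1 : ee (((n : ℤ) : ℝ) * (y * τ)) * ee (((-(n : ℤ) : ℤ) : ℝ) * (y * τ')) =
      Complex.cos θ + Complex.sin θ * Complex.I := by
    unfold ee
    rw [← Complex.exp_add, ← Complex.exp_mul_I]
    congr 1
    rw [hθ]
    push_cast
    ring
  have ex2 : ee (((-(n : ℤ) : ℤ) : ℝ) * (y * τ)) * ee (((-(-(n : ℤ)) : ℤ) : ℝ) * (y * τ')) =
      Complex.cos θ - Complex.sin θ * Complex.I := by
    unfold ee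
    have e1 : Complex.exp (((-θ : ℝ) : ℂ) * Complex.I) = Complex.cos θ - Complex.sin θ * Complex.I := by
      rw [Complex.exp_mul_I]
      push_cast
      rw [Complex.cos_neg, Complex.sin_neg]
      ring
    rw [← Complex.exp_add, ← e1]
    congr 1
    rw [hθ]
    push_cast
    ring
  have hv : V (n * (y * h)) = V (h * (n * y)) := by congr 1; ring
  have hw : W (n * (y * h')) = W (h' * (n * y)) := by congr 1; ring
  rw [hv, hw]
  have hI : Complex.I * Complex.I = -1 := Complex.I_mul_I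
  have hrootC : ((√(y * h) : ℝ) : ℂ) * ((√(y * h') : ℝ) : ℂ) = (y : ℂ) * ((√(h * h') : ℝ) : ℂ) := by
    exact_mod_cast hroot
  have key : ∀ (A B u u' v v' e1 e2 e3 e4 : ℂ), (A * u * e1) * (B * v * e2) + (A * u' * e3) * (B * v' * e4) =
      A * B * (u * v * (e1 * e2) + u' * v' * (e3 * e4)) := by
    intros; ring
  rw [key, ex1, ex2]
  have hAB : ((√(y * h) * a n * V (h * (n * y)) / 2 : ℝ) : ℂ) * ((√(y * h') * a' n * W (h' * (n * y)) / 2 : ℝ) : ℂ) =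
      1 / 4 * ((y : ℂ) * (a n * a' n * (((√(h * h') : ℝ) : ℂ) * (V (h * (n * y)) * W (h' * (n * y)))))) := by
    push_cast
    calc ((√(y * h) : ℝ) : ℂ) * a n * V (h * (n * y)) / 2 * (((√(y * h') : ℝ) : ℂ) * a' n * W (h' * (n * y)) / 2)
        = 1 / 4 * ((((√(y * h) : ℝ) : ℂ) * ((√(y * h') : ℝ) : ℂ)) * (a n * a' n * (V (h * (n * y)) * W (h' * (n * y))))) := by
          ring
      _ = _ := by rw [hrootC]; ring
  rw [hAB]
  have htr : (if b = true then (1 : ℂ) else -Complex.I * ((1 : ℤ) : ℂ)) *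
        (if b' = true then (1 : ℂ) else -Complex.I * ((-1 : ℤ) : ℂ)) *
          (Complex.cos θ + Complex.sin θ * Complex.I) +
      (if b = true then (1 : ℂ) else -Complex.I * ((-1 : ℤ) : ℂ)) *
        (if b' = true then (1 : ℂ) else -Complex.I * ((1 : ℤ) : ℂ)) *
          (Complex.cos θ - Complex.sin θ * Complex.I) = 2 * ((tr b b' θ : ℝ) : ℂ) := by
    unfold tr
    cases b <;> cases b'
    · simp only [Bool.false_eq_true, if_false, if_true]
      push_cast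
      linear_combination (-(2 * Complex.cos θ)) * hI
    · simp only [Bool.false_eq_true, if_false, if_true]
      push_cast
      linear_combination (-(2 * Complex.sin θ)) * hI
    · simp only [Bool.false_eq_true, Bool.true_eq_false, if_false, if_true]
      push_cast
      linear_combination (2 * Complex.sin θ) * hI
    · simp only [if_true]
      push_cast
      ring
  rw [htr]
  unfold GG
  rw [← hθ]
  push_cast
  ring

theorem J_le (J : ℕ) : (J : ℝ) ≤ 6 * (2 : ℝ) ^ (1 / 4 * (J : ℝ)) := by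
  have h1 : (2 : ℝ) ^ (1 / 4 * (J : ℝ)) = Real.exp (Real.log 2 * (1 / 4 * (J : ℝ))) := by
    rw [Real.rpow_def_of_pos (by norm_num)]
  have h2 := Real.add_one_le_exp (Real.log 2 * (1 / 4 * (J : ℝ)))
  have h3 := Real.log_two_gt_d9
  have h4 : (0 : ℝ) ≤ J := Nat.cast_nonneg J
  rw [h1]
  nlinarith

/-- the constant -/
noncomputable def KK (B C c κ : ℝ) : ℝ :=
  1 / 2 * (B * C * (1 / c + (2 / c + 1) * (2 * (2 / c) + 26)) + |κ| * (B * (2 * (3 + 1 / c) + 24 + 1 / c ^ 2)))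

theorem KK_nonneg {B C c κ : ℝ} (hB : 0 ≤ B) (hC : 0 ≤ C) (hc : 0 < c) : 0 ≤ KK B C c κ := by
  unfold KK
  positivity

theorem core {G G' : ℝ → ℝ} {B c C η κ : ℝ} (hB : 0 ≤ B) (hc : 0 < c) (hC : 0 ≤ C) (hη : 0 < η) (hη1 : η < 1)
    (hd : ∀ t, 0 < t → HasDerivAt G (G' t) t)
    (hG : ∀ t, 0 < t → |G t| ≤ B * Real.exp (-(c * t)))
    (hG' : ∀ t, 0 < t → |G' t| ≤ B * (1 + 1 / t) * Real.exp (-(c * t)))
    (α : ℕ → ℝ) (hα : ∀ N : ℕ, 1 ≤ N → |∑ n ∈ Icc 1 N, α n - κ * N| ≤ C * (N : ℝ) ^ (1 - η))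
    (J : ℕ) {y : ℝ} (hy1 : (2 : ℝ) ^ (-(J : ℝ)) ≤ y) (hy2 : y ≤ 2 * (2 : ℝ) ^ (-(J : ℝ))) :
    |1 / 2 * (y * ∑ n ∈ Icc 1 (4 ^ J), α n * G (n * y)) - κ / 2 * ∫ t in Set.Ioi (0 : ℝ), G t| ≤
      KK B C c κ * (2 : ℝ) ^ (-(min (η / 2) (1 / 4) * J)) := by
  have h20 : (0 : ℝ) < 2 := by norm_num
  have hρ : (0 : ℝ) < (2 : ℝ) ^ (-(J : ℝ)) := Real.rpow_pos_of_pos h20 _
  have hy : 0 < y := hρ.trans_le hy1
  have hJ0 : (0 : ℝ) ≤ J := Nat.cast_nonneg J
  have hM : 1 ≤ 4 ^ J := Nat.one_le_pow _ _ (by norm_num)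
  have hMcast : (((4 ^ J : ℕ) : ℝ)) = (2 : ℝ) ^ (2 * (J : ℝ)) := by
    push_cast
    rw [show (2 : ℝ) * (J : ℝ) = ((2 * J : ℕ) : ℝ) by push_cast; ring, Real.rpow_natCast, pow_mul]
    norm_num
  have hlog : Real.log ((4 ^ J : ℕ) : ℝ) ≤ 2 * J := by
    rw [hMcast, Real.log_rpow h20]
    have := Real.log_two_lt_d9
    nlinarith
  set R : ℝ := (2 : ℝ) ^ (-(min (η / 2) (1 / 4) * J)) with hR
  have hR0 : 0 < R := Real.rpow_pos_of_pos h20 _
  have hmin0 : 0 < min (η / 2) (1 / 4 : ℝ) := lt_min (by linarith) (by norm_num)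
  have r1 : (2 : ℝ) ^ (-(J : ℝ)) ≤ R := by
    apply Real.rpow_le_rpow_of_exponent_le (by norm_num)
    have := min_le_right (η / 2) (1 / 4 : ℝ)
    nlinarith
  have r2 : (2 : ℝ) ^ (-(1 / 4 * (J : ℝ))) ≤ R := by
    apply Real.rpow_le_rpow_of_exponent_le (by norm_num)
    have := min_le_right (η / 2) (1 / 4 : ℝ)
    nlinarith
  have r3 : (2 : ℝ) ^ (-(η / 2 * (J : ℝ))) ≤ R := by
    apply Real.rpow_le_rpow_of_exponent_le (by norm_num)
    have := min_le_left (η / 2) (1 / 4 : ℝ)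
    nlinarith
  have hJ := J_le J
  have s1 : (2 : ℝ) ^ (-(J : ℝ)) * J ≤ 6 * R := by
    calc (2 : ℝ) ^ (-(J : ℝ)) * J ≤ (2 : ℝ) ^ (-(J : ℝ)) * (6 * (2 : ℝ) ^ (1 / 4 * (J : ℝ))) :=
          mul_le_mul_of_nonneg_left hJ hρ.le
      _ = 6 * (2 : ℝ) ^ (-(J : ℝ) + 1 / 4 * (J : ℝ)) := by rw [Real.rpow_add h20]; ring
      _ ≤ 6 * (2 : ℝ) ^ (-(1 / 4 * (J : ℝ))) := by
          refine mul_le_mul_of_nonneg_left ?_ (by norm_num)
          apply Real.rpow_le_rpow_of_exponent_le (by norm_num)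
          linarith
      _ ≤ 6 * R := mul_le_mul_of_nonneg_left r2 (by norm_num)
  -- the powers of `y`
  have p1 : y ^ (η / 2) ≤ 2 * R := by
    calc y ^ (η / 2) ≤ (2 * (2 : ℝ) ^ (-(J : ℝ))) ^ (η / 2) := Real.rpow_le_rpow hy.le hy2 (by linarith)
      _ = (2 : ℝ) ^ (η / 2) * (2 : ℝ) ^ (-(η / 2 * (J : ℝ))) := by
          rw [Real.mul_rpow h20.le hρ.le, ← Real.rpow_mul h20.le]
          congr 2
          ring
      _ ≤ 2 * R := by
          refine mul_le_mul ?_ r3 (by positivity) (by norm_num)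
          calc (2 : ℝ) ^ (η / 2) ≤ (2 : ℝ) ^ (1 : ℝ) :=
                Real.rpow_le_rpow_of_exponent_le (by norm_num) (by linarith)
            _ = 2 := Real.rpow_one 2
  have p2 : y ^ (1 / 2 : ℝ) ≤ 2 * (2 : ℝ) ^ (-(1 / 2 * (J : ℝ))) := by
    calc y ^ (1 / 2 : ℝ) ≤ (2 * (2 : ℝ) ^ (-(J : ℝ))) ^ (1 / 2 : ℝ) :=
          Real.rpow_le_rpow hy.le hy2 (by norm_num)
      _ = (2 : ℝ) ^ (1 / 2 : ℝ) * (2 : ℝ) ^ (-(1 / 2 * (J : ℝ))) := by
          rw [Real.mul_rpow h20.le hρ.le, ← Real.rpow_mul h20.le]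
          congr 2
          ring
      _ ≤ 2 * (2 : ℝ) ^ (-(1 / 2 * (J : ℝ))) := by
          refine mul_le_mul_of_nonneg_right ?_ (by positivity)
          calc (2 : ℝ) ^ (1 / 2 : ℝ) ≤ (2 : ℝ) ^ (1 : ℝ) :=
                Real.rpow_le_rpow_of_exponent_le (by norm_num) (by norm_num)
            _ = 2 := Real.rpow_one 2
  have p3 : y ^ (1 / 2 : ℝ) * (1 + Real.log ((4 ^ J : ℕ) : ℝ)) ≤ 26 * R := by
    have q1 : 1 + Real.log ((4 ^ J : ℕ) : ℝ) ≤ 13 * (2 : ℝ) ^ (1 / 4 * (J : ℝ)) := by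
      have : (1 : ℝ) ≤ (2 : ℝ) ^ (1 / 4 * (J : ℝ)) := Real.one_le_rpow (by norm_num) (by positivity)
      linarith
    have q0 : 0 ≤ 1 + Real.log ((4 ^ J : ℕ) : ℝ) := by
      have : 0 ≤ Real.log ((4 ^ J : ℕ) : ℝ) := Real.log_natCast_nonneg _
      linarith
    calc y ^ (1 / 2 : ℝ) * (1 + Real.log ((4 ^ J : ℕ) : ℝ))
        ≤ (2 * (2 : ℝ) ^ (-(1 / 2 * (J : ℝ)))) * (13 * (2 : ℝ) ^ (1 / 4 * (J : ℝ))) :=
          mul_le_mul p2 q1 q0 (by positivity)
      _ = 26 * (2 : ℝ) ^ (-(1 / 2 * (J : ℝ)) + 1 / 4 * (J : ℝ)) := by rw [Real.rpow_add h20]; ring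
      _ = 26 * (2 : ℝ) ^ (-(1 / 4 * (J : ℝ))) := by congr 2; ring
      _ ≤ 26 * R := mul_le_mul_of_nonneg_left r2 (by norm_num)
  have p4 : (((4 ^ J : ℕ) : ℝ)) ^ (-η) ≤ R := by
    rw [hMcast, ← Real.rpow_mul h20.le]
    refine le_trans ?_ r3
    apply Real.rpow_le_rpow_of_exponent_le (by norm_num)
    nlinarith
  have p5 : 1 / (c ^ 2 * (((4 ^ J : ℕ) : ℝ) * y)) ≤ 1 / c ^ 2 * R := by
    have q1 : (2 : ℝ) ^ (J : ℝ) ≤ ((4 ^ J : ℕ) : ℝ) * y := by
      calc (2 : ℝ) ^ (J : ℝ) = (2 : ℝ) ^ (2 * (J : ℝ)) * (2 : ℝ) ^ (-(J : ℝ)) := by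
            rw [← Real.rpow_add h20]
            congr 1
            ring
        _ ≤ ((4 ^ J : ℕ) : ℝ) * y := by
            rw [hMcast]
            exact mul_le_mul_of_nonneg_left hy1 (by positivity)
    calc 1 / (c ^ 2 * (((4 ^ J : ℕ) : ℝ) * y)) ≤ 1 / (c ^ 2 * (2 : ℝ) ^ (J : ℝ)) := by
          apply one_div_le_one_div_of_le (by positivity)
          exact mul_le_mul_of_nonneg_left q1 (by positivity)
      _ = 1 / c ^ 2 * (2 : ℝ) ^ (-(J : ℝ)) := by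
          rw [Real.rpow_neg h20.le]
          field_simp
      _ ≤ 1 / c ^ 2 * R := mul_le_mul_of_nonneg_left r1 (by positivity)
  have p6 : y * (2 + 1 / c + 1 + Real.log ((4 ^ J : ℕ) : ℝ)) ≤ (2 * (3 + 1 / c) + 24) * R := by
    have q0 : 0 ≤ 2 + 1 / c + 1 + Real.log ((4 ^ J : ℕ) : ℝ) := by
      have : 0 ≤ Real.log ((4 ^ J : ℕ) : ℝ) := Real.log_natCast_nonneg _
      positivity
    calc y * (2 + 1 / c + 1 + Real.log ((4 ^ J : ℕ) : ℝ))
        ≤ (2 * (2 : ℝ) ^ (-(J : ℝ))) * (2 + 1 / c + 1 + 2 * J) :=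
          mul_le_mul hy2 (by linarith) q0 (by positivity)
      _ = 2 * (3 + 1 / c) * (2 : ℝ) ^ (-(J : ℝ)) + 4 * ((2 : ℝ) ^ (-(J : ℝ)) * J) := by ring
      _ ≤ 2 * (3 + 1 / c) * R + 4 * (6 * R) :=
          add_le_add (mul_le_mul_of_nonneg_left r1 (by positivity)) (mul_le_mul_of_nonneg_left s1 (by norm_num))
      _ = (2 * (3 + 1 / c) + 24) * R := by ring
  -- the two parts
  have f1 := fluct hB hc hC hη hη1 hd hG hG' (fun n => α n - κ) (by
    intro N hN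
    have := hα N hN
    rw [sum_sub_distrib, sum_const, Nat.card_Icc, Nat.add_sub_cancel, nsmul_eq_mul, mul_comm (N : ℝ) κ]
    exact this) hy hM
  have f2 := riemann hB hc hd hG hG' hy hM
  have f1' : |y * ∑ n ∈ Icc 1 (4 ^ J), (α n - κ) * G (n * y)| ≤
      B * C * (1 / c + (2 / c + 1) * (2 * (2 / c) + 26)) * R := by
    refine f1.trans ?_
    calc B * C * ((1 / c) * (((4 ^ J : ℕ) : ℝ)) ^ (-η) +
          (2 / c + 1) * (y ^ (η / 2) * (2 / c) + y ^ (1 / 2 : ℝ) * (1 + Real.log ((4 ^ J : ℕ) : ℝ))))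
        ≤ B * C * ((1 / c) * R + (2 / c + 1) * (2 * R * (2 / c) + 26 * R)) := by
          refine mul_le_mul_of_nonneg_left ?_ (by positivity)
          refine add_le_add (mul_le_mul_of_nonneg_left p4 (by positivity)) ?_
          refine mul_le_mul_of_nonneg_left ?_ (by positivity)
          exact add_le_add (mul_le_mul_of_nonneg_right p1 (by positivity)) p3
      _ = _ := by ring
  have f2' : |y * ∑ n ∈ Icc (1 : ℕ) (4 ^ J), G (n * y) - ∫ t in Set.Ioi (0 : ℝ), G t| ≤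
      B * (2 * (3 + 1 / c) + 24 + 1 / c ^ 2) * R := by
    refine f2.trans ?_
    calc B * (y * (2 + 1 / c + 1 + Real.log ((4 ^ J : ℕ) : ℝ)) + 1 / (c ^ 2 * (((4 ^ J : ℕ) : ℝ) * y)))
        ≤ B * ((2 * (3 + 1 / c) + 24) * R + 1 / c ^ 2 * R) :=
          mul_le_mul_of_nonneg_left (add_le_add p6 p5) hB
      _ = _ := by ring
  have hsplit : 1 / 2 * (y * ∑ n ∈ Icc 1 (4 ^ J), α n * G (n * y)) - κ / 2 * ∫ t in Set.Ioi (0 : ℝ), G t =
      1 / 2 * (y * ∑ n ∈ Icc 1 (4 ^ J), (α n - κ) * G (n * y)) +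
        κ / 2 * (y * ∑ n ∈ Icc (1 : ℕ) (4 ^ J), G (n * y) - ∫ t in Set.Ioi (0 : ℝ), G t) := by
    have : ∑ n ∈ Icc 1 (4 ^ J), (α n - κ) * G (n * y) =
        ∑ n ∈ Icc 1 (4 ^ J), α n * G (n * y) - κ * ∑ n ∈ Icc (1 : ℕ) (4 ^ J), G (n * y) := by
      rw [mul_sum, ← sum_sub_distrib]
      apply sum_congr rfl
      intro n _
      ring
    rw [this]
    ring
  rw [hsplit]
  calc |1 / 2 * (y * ∑ n ∈ Icc 1 (4 ^ J), (α n - κ) * G (n * y)) +
        κ / 2 * (y * ∑ n ∈ Icc (1 : ℕ) (4 ^ J), G (n * y) - ∫ t in Set.Ioi (0 : ℝ), G t)|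
      ≤ 1 / 2 * |y * ∑ n ∈ Icc 1 (4 ^ J), (α n - κ) * G (n * y)| +
        |κ| / 2 * |y * ∑ n ∈ Icc (1 : ℕ) (4 ^ J), G (n * y) - ∫ t in Set.Ioi (0 : ℝ), G t| := by
        refine (abs_add_le _ _).trans (le_of_eq ?_)
        rw [abs_mul (1 / 2 : ℝ), abs_mul (κ / 2), abs_div κ, abs_of_pos h20,
          abs_of_pos (show (0 : ℝ) < 1 / 2 by norm_num)]
    _ ≤ 1 / 2 * (B * C * (1 / c + (2 / c + 1) * (2 * (2 / c) + 26)) * R) +
        |κ| / 2 * (B * (2 * (3 + 1 / c) + 24 + 1 / c ^ 2) * R) :=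
        add_le_add (mul_le_mul_of_nonneg_left f1' (by norm_num))
          (mul_le_mul_of_nonneg_left f2' (by positivity))
    _ = KK B C c κ * R := by
        unfold KK
        ring

/-- **The covariance.** -/
theorem yv : S_YV := by
  intro ι _ a V V' κ _ hAdm hGram h₀ h₁ L h0 h01 hL
  obtain ⟨η, C, hη, hη1, hgr⟩ := hGram
  choose C₁ c₁ hc₁ hV using hAdm
  have hC₁ : ∀ i, 0 ≤ C₁ i := by
    intro i
    obtain ⟨-, h2, -⟩ := hV i 1 one_pos
    by_contra hcon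
    push Not at hcon
    have h3 : C₁ i * Real.exp (-(c₁ i * 1)) < 0 := mul_neg_of_neg_of_pos hcon (Real.exp_pos _)
    have h4 := abs_nonneg (V i 1)
    linarith
  have hC0 : ι → 0 ≤ C := by
    intro i
    have := hgr i i 1 le_rfl
    rw [Nat.cast_one, Real.one_rpow, mul_one, mul_one] at this
    exact (abs_nonneg _).trans this
  have h1p : 0 < h₁ := h0.trans_le h01
  have hpi := Real.pi_pos
  set BB : ι → ι → ℝ := fun i j => h₁ * (C₁ i * C₁ j) * (2 + 4 * Real.pi * L) with hBB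
  set cc : ι → ι → ℝ := fun i j => (c₁ i + c₁ j) * h₀ with hcc
  have hBB0 : ∀ i j, 0 ≤ BB i j := by
    intro i j
    have := hC₁ i
    have := hC₁ j
    simp only [hBB]
    positivity
  have hcc0 : ∀ i j, 0 < cc i j := by
    intro i j
    have := hc₁ i
    have := hc₁ j
    simp only [hcc]
    positivity
  have hK0 : ∀ i j, 0 ≤ KK (BB i j) C (cc i j) (κ i j) := fun i j => KK_nonneg (hBB0 i j) (hC0 i) (hcc0 i j)
  refine ⟨min (η / 2) (1 / 4), ∑ i, ∑ j, KK (BB i j) C (cc i j) (κ i j), lt_min (by linarith) (by norm_num),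
    sum_nonneg fun i _ => sum_nonneg fun j _ => hK0 i j, ?_⟩
  intro J i j b b' τ τ' h h' y hy1 hy2 hτ hτ' hh1 hh2 hh'1 hh'2
  have hy : 0 < y := (Real.rpow_pos_of_pos (by norm_num) _).trans_le hy1
  have hh : 0 < h := h0.trans_le hh1
  have hh' : 0 < h' := h0.trans_le hh'1
  have hττ : |τ - τ'| ≤ 2 * L := by
    refine (abs_sub _ _).trans ?_
    linarith
  have hsum : ∑ n ∈ Bx (4 ^ J), (ut b (a i) (V i) (4 ^ J) (y * h) n * ee ((n : ℝ) * (y * τ))) *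
      (ut b' (a j) (V j) (4 ^ J) (y * h') (-n) * ee (((-n : ℤ) : ℝ) * (y * τ'))) =
      ((1 / 2 * (y * ∑ n ∈ Icc 1 (4 ^ J), (a i n * a j n) * GG (V i) (V j) b b' h h' (τ - τ') (n * y)) : ℝ) : ℂ) := by
    rw [Pool.Agent.Q150.L2.GQ.sum_Bx]
    rw [mul_sum, mul_sum, Complex.ofReal_sum]
    apply sum_congr rfl
    intro n hn
    rw [mem_Icc] at hn
    refine (pair_eq b b' (a i) (a j) (V i) (V j) τ τ' hy hh hh' hn.1 (M := 4 ^ J) ?_)
    exact_mod_cast hn.2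
  have hcv : cv (κ i j) (V i) (V j) b b' h h' (τ - τ') =
      κ i j / 2 * ∫ t in Set.Ioi (0 : ℝ), GG (V i) (V j) b b' h h' (τ - τ') t := by
    unfold cv GG
    rw [integral_const_mul]
    ring
  rw [hsum, hcv, ← Complex.ofReal_sub, Complex.norm_real, Real.norm_eq_abs]
  have hV' : ∀ i u, 0 < u → |V i u| ≤ C₁ i * Real.exp (-(c₁ i * u)) ∧
      |V' i u| ≤ C₁ i * Real.exp (-(c₁ i * u)) / u := fun i u hu => (hV i u hu).2
  have hb := fun t (ht : (0 : ℝ) < t) => GG_bounds (hc₁ i) (hc₁ j) (hC₁ i) (hC₁ j) (hV' i) (hV' j) h0 hL.le b b'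
    hh1 hh2 hh'1 hh'2 hττ ht
  have hmain := core (G := GG (V i) (V j) b b' h h' (τ - τ'))
    (G' := GG1 (V i) (V' i) (V j) (V' j) b b' h h' (τ - τ')) (κ := κ i j) (hBB0 i j) (hcc0 i j) (hC0 i) hη hη1
    (fun t ht => GG_deriv (fun u hu => (hV i u hu).1) (fun u hu => (hV j u hu).1) b b' (τ - τ') hh hh' ht)
    (fun t ht => (hb t ht).1) (fun t ht => (hb t ht).2) (fun n => a i n * a j n)
    (fun N hN => hgr i j N hN) J hy1 hy2
  refine hmain.trans (mul_le_mul_of_nonneg_right ?_ (by positivity))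
  have g1 : KK (BB i j) C (cc i j) (κ i j) ≤ ∑ j, KK (BB i j) C (cc i j) (κ i j) :=
    single_le_sum (f := fun j => KK (BB i j) C (cc i j) (κ i j)) (fun j _ => hK0 i j) (mem_univ j)
  have g2 : ∑ j, KK (BB i j) C (cc i j) (κ i j) ≤ ∑ i, ∑ j, KK (BB i j) C (cc i j) (κ i j) :=
    single_le_sum (f := fun i => ∑ j, KK (BB i j) C (cc i j) (κ i j))
      (fun i _ => sum_nonneg fun j _ => hK0 i j) (mem_univ i)
  exact g1.trans g2

end Pool.Agent.Q38.L2Y
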